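import Pool.Agent.Lib.MP_9f2731_nt.CG.Ma.SpecE

/-!
MP_9f2731_nt, CG/Ma, module AfP (helper29): the sieve sum and one sieving prime.
-/

namespace Pool.Agent.Lib.MP_9f2731_nt.CG.Ma

open Finset

open Pool.Agent.Lib.MP_9f2731_nt.GP Pool.Agent.Lib.MP_9f2731_nt.GP.Sv Pool.Agent.Lib.MP_9f2731_nt.QL Pool.Agent.Lib.MP_9f2731_nt.QL.Sw

private theorem afp_Qs {V p : ℕ} {R : ℝ} (hp : p ∈ QsV V R) :
    QsV V R = insert p (QsV (V * p) R) ∧ p ∉ QsV (V * p) R := by
  obtain ⟨h1, h2, h3⟩ := mem_QsV.1 hp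
  constructor
  · ext q
    rw [mem_insert, mem_QsV, mem_QsV]
    constructor
    · rintro ⟨h4, h5, h6⟩
      by_cases h : q = p
      · exact Or.inl h
      · right
        refine ⟨h4, fun h7 => ?_, h6⟩
        rcases (Nat.Prime.dvd_mul h4).1 h7 with h8 | h8
        · exact h5 h8
        · exact h ((Nat.prime_dvd_prime_iff_eq h4 h1).1 h8)
    · rintro (h | ⟨h4, h5, h6⟩)
      · subst h
        exact ⟨h1, h2, h3⟩
      · exact ⟨h4, fun h7 => h5 (Dvd.dvd.mul_right h7 p), h6⟩
  · intro h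
    exact (mem_QsV.1 h).2.1 (Nat.dvd_mul_left p V)

private theorem afp_Pq {V p : ℕ} {R : ℝ} (hp : p ∈ QsV V R) : PqV V R = PqV (V * p) R * p := by
  obtain ⟨h1, h2⟩ := afp_Qs hp
  unfold PqV
  rw [h1, Finset.prod_insert h2, mul_comm]

private theorem afp_cop {V p : ℕ} {R : ℝ} (hp : p ∈ QsV V R) : p.Coprime (PqV (V * p) R) := by
  have h1 := (mem_QsV.1 hp).1
  rw [Nat.Prime.coprime_iff_not_dvd h1]
  intro h
  exact (afp_Qs hp).2 ((prime_dvd_PqV h1).1 h)

private theorem afp_div {V p : ℕ} (hV : V ≠ 0) (hp : p.Prime) (hc : p.Coprime V) (F : ℕ → ℝ) :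
    ∑ d ∈ (V * p).divisors, F d = ∑ d ∈ V.divisors, F d + ∑ d ∈ V.divisors, F (d * p) := by
  have h1 : (V * p).divisors = V.divisors ∪ V.divisors.image (fun d => d * p) := by
    ext d
    rw [mem_union, mem_image, Nat.mem_divisors]
    constructor
    · rintro ⟨h2, _⟩
      by_cases hpd : p ∣ d
      · right
        obtain ⟨e, rfl⟩ := hpd
        refine ⟨e, Nat.mem_divisors.2 ⟨?_, hV⟩, mul_comm _ _⟩
        rw [mul_comm p e] at h2
        exact Nat.dvd_of_mul_dvd_mul_right hp.pos h2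
      · left
        have h3 : d.Coprime p := ((Nat.Prime.coprime_iff_not_dvd hp).2 hpd).symm
        exact Nat.mem_divisors.2 ⟨h3.dvd_of_dvd_mul_right h2, hV⟩
    · have hne : V * p ≠ 0 := Nat.mul_ne_zero hV hp.ne_zero
      rintro (h2 | ⟨e, h2, rfl⟩)
      · exact ⟨(Nat.dvd_of_mem_divisors h2).trans (Nat.dvd_mul_right V p), hne⟩
      · exact ⟨Nat.mul_dvd_mul_right (Nat.dvd_of_mem_divisors h2) p, hne⟩
  have h2 : Disjoint V.divisors (V.divisors.image (fun d => d * p)) := by
    rw [Finset.disjoint_left]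
    intro d hd hd'
    rw [mem_image] at hd'
    obtain ⟨e, _, rfl⟩ := hd'
    have h3 : p ∣ V := (Nat.dvd_mul_left p e).trans (Nat.dvd_of_mem_divisors hd)
    exact (Nat.Prime.coprime_iff_not_dvd hp).1 hc h3
  rw [h1, Finset.sum_union h2, Finset.sum_image]
  intro a _ b _ hab
  exact Nat.eq_of_mul_eq_mul_right hp.pos hab

private theorem afp_mu {d p : ℕ} (hp : p.Prime) (hc : d.Coprime p) :
    ((ArithmeticFunction.moebius (d * p) : ℤ) : ℝ) = -((ArithmeticFunction.moebius d : ℤ) : ℝ) := by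
  rw [ArithmeticFunction.isMultiplicative_moebius.map_mul_of_coprime hc,
    ArithmeticFunction.moebius_apply_prime hp]
  push_cast
  ring

theorem pAfP : AfPStmt := by
  intro V R f
  refine ⟨?_, ?_, ?_⟩
  · intro p n hp hn
    have hpp := (mem_QsV.1 hp).1
    unfold AF
    rw [afp_Pq hp, afp_div PqV_ne hpp (afp_cop hp)]
    have h1 : ∑ d ∈ (PqV (V * p) R).divisors, ((ArithmeticFunction.moebius (d * p) : ℤ) : ℝ) *
        ind (d * p) n * f (d * p) = 0 := by
      refine Finset.sum_eq_zero fun d _ => ?_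
      have h2 : ind (d * p) n = 0 := by
        unfold ind
        rw [if_neg]
        intro h
        exact hn ((Nat.dvd_mul_left p d).trans h)
      rw [h2, mul_zero, zero_mul]
    rw [h1, add_zero]
  · intro p n hp hn
    have hpp := (mem_QsV.1 hp).1
    unfold AF
    rw [afp_Pq hp, afp_div PqV_ne hpp (afp_cop hp), ← Finset.sum_add_distrib]
    refine Finset.sum_congr rfl fun d hd => ?_
    have hc : d.Coprime p :=
      Nat.Coprime.coprime_dvd_left (Nat.dvd_of_mem_divisors hd) (afp_cop hp).symm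
    have h2 : ind (d * p) n = ind d n := by
      unfold ind
      by_cases h : d ∣ n
      · rw [if_pos h, if_pos (hc.mul_dvd_of_dvd_of_dvd h hn)]
      · rw [if_neg h, if_neg (fun h' => h ((Nat.dvd_mul_right d p).trans h'))]
    rw [h2, afp_mu hpp hc, mul_comm d p]
    ring
  · intro q hq hRq hR0
    unfold AF
    rw [Finset.sum_eq_single 1]
    · have h1 : ind 1 q = 1 := by
        unfold ind
        rw [if_pos (one_dvd q)]
      rw [h1, ArithmeticFunction.moebius_apply_one, Int.cast_one, one_mul, one_mul]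
    · intro d hd hd1
      have h2 : ind d q = 0 := by
        unfold ind
        rw [if_neg]
        intro h
        rcases (Nat.dvd_prime hq).1 h with h3 | h3
        · exact hd1 h3
        · subst h3
          have h4 := (mem_QsV.1 ((prime_dvd_PqV hq).1 (Nat.dvd_of_mem_divisors hd))).2.2
          have h5 : (d : ℝ) ≤ R := (Nat.le_floor_iff hR0).1 h4
          linarith
      rw [h2, mul_zero, zero_mul]
    · intro h
      exact absurd (Nat.mem_divisors.2 ⟨one_dvd _, PqV_ne⟩) h

end Pool.Agent.Lib.MP_9f2731_nt.CG.Ma
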