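import Pool.Agent.Lib.MP_9f2731_nt.CG.Ma.Spec

/-!
MP_9f2731_nt, CG/Ma, module ErF (helper29): grouping the error terms by the least common multiple.
-/

namespace Pool.Agent.Lib.MP_9f2731_nt.CG.Ma

open Finset

open Pool.Agent.Lib.MP_9f2731_nt.GP Pool.Agent.Lib.MP_9f2731_nt.GP.Sv Pool.Agent.Lib.MP_9f2731_nt.QL Pool.Agent.Lib.MP_9f2731_nt.QL.Sw

theorem pErF : ErFStmt := by
  intro ι _ _ V R err y herr
  set P := Fintype.piFinset (fun i => (PqV V R).divisors.filter (fun d : ℕ => (d : ℝ) ≤ y i)) with hP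
  set T := (PqV V R).divisors.filter (fun D : ℕ => (D : ℝ) ≤ ∏ i, y i) with hT
  have hpos : ∀ d ∈ P, ∀ i, 0 < d i ∧ d i ∣ PqV V R ∧ (d i : ℝ) ≤ y i := by
    intro d hd i
    rw [hP, Fintype.mem_piFinset] at hd
    have h1 := mem_filter.1 (hd i)
    exact ⟨Nat.pos_of_mem_divisors h1.1, Nat.dvd_of_mem_divisors h1.1, h1.2⟩
  have hmap : ∀ d ∈ P, univ.lcm d ∈ T := by
    intro d hd
    have h1 := hpos d hd
    refine mem_filter.2 ⟨Nat.mem_divisors.2 ⟨Finset.lcm_dvd fun i _ => (h1 i).2.1, PqV_ne⟩, ?_⟩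
    have h2 : univ.lcm d ∣ ∏ i, d i := Finset.lcm_dvd fun i hi => Finset.dvd_prod_of_mem d hi
    have h3 : 0 < ∏ i, d i := Finset.prod_pos fun i _ => (h1 i).1
    have h4 : univ.lcm d ≤ ∏ i, d i := Nat.le_of_dvd h3 h2
    calc ((univ.lcm d : ℕ) : ℝ) ≤ ((∏ i, d i : ℕ) : ℝ) := by exact_mod_cast h4
      _ = ∏ i, (d i : ℝ) := by push_cast; rfl
      _ ≤ ∏ i, y i := Finset.prod_le_prod (fun i _ => Nat.cast_nonneg _) fun i _ => (h1 i).2.2
  rw [← Finset.sum_fiberwise_of_maps_to hmap]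
  refine Finset.sum_le_sum fun D hD => ?_
  have hD0 : D ≠ 0 := (Nat.pos_of_mem_divisors (mem_filter.1 hD).1).ne'
  have h1 : ∑ d ∈ P.filter (fun d => univ.lcm d = D), err (univ.lcm d) =
      ((P.filter (fun d => univ.lcm d = D)).card : ℝ) * err D := by
    rw [← nsmul_eq_mul, ← Finset.sum_const]
    refine Finset.sum_congr rfl fun d hd => ?_
    rw [(mem_filter.1 hd).2]
  rw [h1]
  refine mul_le_mul_of_nonneg_right ?_ (herr D)
  have h2 : P.filter (fun d => univ.lcm d = D) ⊆ Fintype.piFinset (fun _ : ι => D.divisors) := by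
    intro d hd
    rw [Fintype.mem_piFinset]
    intro i
    rw [Nat.mem_divisors]
    refine ⟨?_, hD0⟩
    rw [← (mem_filter.1 hd).2]
    exact Finset.dvd_lcm (mem_univ i)
  have h3 := card_le_card h2
  rw [Fintype.card_piFinset, Finset.prod_const, card_univ] at h3
  exact_mod_cast h3

end Pool.Agent.Lib.MP_9f2731_nt.CG.Ma
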