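import Pool.Agent.Lib.MP_9f2731_nt.CG.Ma.SpecE

/-!
MP_9f2731_nt, CG/Ma, module HwT: harmonic sums with logarithmic weights over the numbers prime to V (helper26).
-/

namespace Pool.Agent.Lib.MP_9f2731_nt.CG.Ma

open Finset
open Pool.Agent.Lib.MP_9f2731_nt.GP
open Pool.Agent.Lib.MP_9f2731_nt.GP.Sv
open Pool.Agent.Lib.MP_9f2731_nt.QL
open Pool.Agent.Lib.MP_9f2731_nt.QL.Sw

/-- one divisor -/
private theorem HwT_one {k : ℕ} {C : ℝ} (hC : 0 ≤ C)
    (h3 : ∀ t : ℝ, 1 ≤ t → |hs k t - Real.log t ^ (k + 1) / ((k : ℝ) + 1)| ≤ C * (1 + Real.log t) ^ k)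
    {d : ℕ} {y : ℝ} (hd1 : 1 ≤ d) (hy : 1 ≤ y) :
    |hs k (y / d) - Real.log y ^ (k + 1) / ((k : ℝ) + 1)| ≤
      (C + 1) * (1 + Real.log y) ^ k * (1 + Real.log d) := by
  have hd0 : (0 : ℝ) < d := by exact_mod_cast hd1
  have hy0 : (0 : ℝ) < y := by linarith
  have ha0 : 0 ≤ Real.log d := Real.log_natCast_nonneg d
  have hl0 : 0 ≤ Real.log y := Real.log_nonneg hy
  have hk1 : (0 : ℝ) < (k : ℝ) + 1 := by positivity
  set a := Real.log d with ha
  set l := Real.log y with hl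
  have hp1 : l ^ k ≤ (1 + l) ^ k := pow_le_pow_left₀ hl0 (by linarith) k
  have hp0 : 0 ≤ (1 + l) ^ k := by positivity
  rcases le_or_gt (d : ℝ) y with h | h
  · have h4 := h3 (y / d) ((one_le_div hd0).2 h)
    rw [Real.log_div hy0.ne' hd0.ne', ← ha, ← hl] at h4
    have h5 : a ≤ l := Real.log_le_log hd0 h
    have h6 : |(l - a) ^ (k + 1) / ((k : ℝ) + 1) - l ^ (k + 1) / ((k : ℝ) + 1)| ≤ a * l ^ k := by
      rw [← sub_div, abs_div, abs_of_pos hk1, div_le_iff₀ hk1]
      have h7 := abs_pow_sub_pow_le (l - a) l (k + 1)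
      have h8 : |l - a - l| = a := by
        rw [show l - a - l = -a by ring, abs_neg, abs_of_nonneg ha0]
      have h9 : max |l - a| |l| = l := by
        rw [abs_of_nonneg (show (0 : ℝ) ≤ l - a by linarith), abs_of_nonneg hl0]
        exact max_eq_right (by linarith)
      rw [h8, h9, Nat.add_sub_cancel, Nat.cast_add, Nat.cast_one] at h7
      calc |(l - a) ^ (k + 1) - l ^ (k + 1)| ≤ a * ((k : ℝ) + 1) * l ^ k := h7
        _ = a * l ^ k * ((k : ℝ) + 1) := by ring
    have h10 : (1 + (l - a)) ^ k ≤ (1 + l) ^ k := pow_le_pow_left₀ (by linarith) (by linarith) k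
    calc |hs k (y / d) - l ^ (k + 1) / ((k : ℝ) + 1)|
        ≤ |hs k (y / d) - (l - a) ^ (k + 1) / ((k : ℝ) + 1)| +
          |(l - a) ^ (k + 1) / ((k : ℝ) + 1) - l ^ (k + 1) / ((k : ℝ) + 1)| := abs_sub_le _ _ _
      _ ≤ C * (1 + (l - a)) ^ k + a * l ^ k := add_le_add h4 h6
      _ ≤ C * (1 + l) ^ k + a * (1 + l) ^ k :=
          add_le_add (mul_le_mul_of_nonneg_left h10 hC) (mul_le_mul_of_nonneg_left hp1 ha0)
      _ ≤ (C + 1) * (1 + l) ^ k * (1 + a) := by
          have h11 : 0 ≤ C * a * (1 + l) ^ k := by positivity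
          nlinarith
  · have h4 : hs k (y / d) = 0 := by
      unfold hs
      have : ⌊y / d⌋₊ = 0 := by
        rw [Nat.floor_eq_zero, div_lt_one hd0]
        exact h
      rw [this]
      simp
    rw [h4, zero_sub, abs_neg, abs_of_nonneg (by positivity)]
    have h5 : l ≤ a := Real.log_le_log hy0 h.le
    have h6 : l ^ (k + 1) / ((k : ℝ) + 1) ≤ l ^ (k + 1) := by
      refine div_le_self (by positivity) ?_
      have : (0 : ℝ) ≤ k := Nat.cast_nonneg k
      linarith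
    have h7 : l ^ (k + 1) ≤ a * (1 + l) ^ k := by
      rw [pow_succ, mul_comm]
      exact mul_le_mul h5 hp1 (by positivity) ha0
    have h11 : 0 ≤ C * (1 + l) ^ k * (1 + a) := by positivity
    nlinarith

/-- the sum over the divisors -/
private theorem HwT_all (h1 : QL.Sw.S_HwE) (h2 : QL.Sw.S_Dl) {k : ℕ} {C : ℝ} (hC : 0 ≤ C)
    (h3 : ∀ t : ℝ, 1 ≤ t → |hs k t - Real.log t ^ (k + 1) / ((k : ℝ) + 1)| ≤ C * (1 + Real.log t) ^ k)
    {V : ℕ} {lam y : ℝ} (hT : Tame V lam) (hy : 1 ≤ y) :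
    |hwV V k y - dlV V * (Real.log y ^ (k + 1) / ((k : ℝ) + 1))| ≤
      (C + 1) * lam * (1 + Real.log y) ^ k := by
  have hV := hT.pos
  obtain ⟨hd1, -, -⟩ := h2 V hV
  have hl0 : 0 ≤ Real.log y := Real.log_nonneg hy
  have e : hwV V k y - dlV V * (Real.log y ^ (k + 1) / ((k : ℝ) + 1))
      = ∑ d ∈ V.divisors, ((ArithmeticFunction.moebius d : ℤ) : ℝ) / d *
        (hs k (y / d) - Real.log y ^ (k + 1) / ((k : ℝ) + 1)) := by
    rw [h1 V k y hV (by linarith), ← hd1, Finset.sum_mul, ← Finset.sum_sub_distrib]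
    exact Finset.sum_congr rfl fun d _ => by ring
  rw [e]
  calc |∑ d ∈ V.divisors, ((ArithmeticFunction.moebius d : ℤ) : ℝ) / d *
        (hs k (y / d) - Real.log y ^ (k + 1) / ((k : ℝ) + 1))|
      ≤ ∑ d ∈ V.divisors, |((ArithmeticFunction.moebius d : ℤ) : ℝ) / d *
        (hs k (y / d) - Real.log y ^ (k + 1) / ((k : ℝ) + 1))| := Finset.abs_sum_le_sum_abs _ _
    _ ≤ ∑ d ∈ V.divisors, ((C + 1) * (1 + Real.log y) ^ k) *
        (|((ArithmeticFunction.moebius d : ℤ) : ℝ)| / d * (1 + Real.log d)) := by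
        refine Finset.sum_le_sum fun d hd => ?_
        have hdd := Nat.dvd_of_mem_divisors hd
        have hd1 : 1 ≤ d := Nat.pos_of_dvd_of_pos hdd hV
        rw [abs_mul, abs_div, Nat.abs_cast]
        calc |((ArithmeticFunction.moebius d : ℤ) : ℝ)| / d *
              |hs k (y / d) - Real.log y ^ (k + 1) / ((k : ℝ) + 1)|
            ≤ |((ArithmeticFunction.moebius d : ℤ) : ℝ)| / d *
              ((C + 1) * (1 + Real.log y) ^ k * (1 + Real.log d)) :=
              mul_le_mul_of_nonneg_left (HwT_one hC h3 hd1 hy) (by positivity)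
          _ = ((C + 1) * (1 + Real.log y) ^ k) *
              (|((ArithmeticFunction.moebius d : ℤ) : ℝ)| / d * (1 + Real.log d)) := by ring
    _ = ((C + 1) * (1 + Real.log y) ^ k) *
        ∑ d ∈ V.divisors, |((ArithmeticFunction.moebius d : ℤ) : ℝ)| / d * (1 + Real.log d) := by
        rw [Finset.mul_sum]
    _ ≤ ((C + 1) * (1 + Real.log y) ^ k) * lam :=
        mul_le_mul_of_nonneg_left hT.sum (by positivity)
    _ = (C + 1) * lam * (1 + Real.log y) ^ k := by ring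

private theorem HwT_0 (h : GP.Sv.S_H0) (t : ℝ) (ht : 1 ≤ t) :
    |hs 0 t - Real.log t ^ (0 + 1) / (((0 : ℕ) : ℝ) + 1)| ≤ 3 * (1 + Real.log t) ^ 0 := by
  have h1 := h t ht
  have h2 : 2 / t ≤ 2 := by
    rw [div_le_iff₀ (by linarith)]
    linarith
  have h3 := Real.eulerMascheroniConstant_lt_two_thirds
  have h4 := Real.one_half_lt_eulerMascheroniConstant
  rw [abs_le] at h1
  rw [zero_add, pow_one, Nat.cast_zero, zero_add, div_one, pow_zero, mul_one, abs_le]
  constructor <;> linarith [h1.1, h1.2]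

private theorem HwT_1 {c C : ℝ} (hC : 0 < C) (h : ∀ y : ℝ, 1 ≤ y →
    |hs 1 y - (1 / 2) * Real.log y ^ 2 - Real.eulerMascheroniConstant * Real.log y - c|
      ≤ C / Real.sqrt y) (t : ℝ) (ht : 1 ≤ t) :
    |hs 1 t - Real.log t ^ (1 + 1) / (((1 : ℕ) : ℝ) + 1)| ≤ (1 + |c| + C) * (1 + Real.log t) ^ 1 := by
  have h1 := h t ht
  have hl := Real.log_nonneg ht
  have h2 : C / Real.sqrt t ≤ C := by
    have h5 : 1 ≤ Real.sqrt t := Real.one_le_sqrt.2 ht
    exact div_le_self hC.le h5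
  have h3 := Real.eulerMascheroniConstant_lt_two_thirds
  have h4 := Real.one_half_lt_eulerMascheroniConstant
  have h5 := abs_nonneg c
  have h6 := le_abs_self c
  have h7 := neg_abs_le c
  rw [abs_le] at h1
  have h8 : 0 ≤ Real.eulerMascheroniConstant * Real.log t := mul_nonneg (by linarith) hl
  have h9 : Real.eulerMascheroniConstant * Real.log t ≤ Real.log t := by nlinarith
  have h10 : 0 ≤ (|c| + C) * Real.log t := by positivity
  have e : Real.log t ^ (1 + 1) / (((1 : ℕ) : ℝ) + 1) = (1 / 2) * Real.log t ^ 2 := by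
    norm_num
    ring
  rw [e, pow_one, abs_le]
  constructor <;> nlinarith [h1.1, h1.2]

private theorem HwT_2 (h : GP.Sv.S_H2) (t : ℝ) (ht : 1 ≤ t) :
    |hs 2 t - Real.log t ^ (2 + 1) / (((2 : ℕ) : ℝ) + 1)| ≤ 1 * (1 + Real.log t) ^ 2 := by
  have h1 := h t ht
  have hl := Real.log_nonneg ht
  have e : Real.log t ^ (2 + 1) / (((2 : ℕ) : ℝ) + 1) = (1 / 3) * Real.log t ^ 3 := by
    norm_num
    ring
  rw [e]
  refine h1.trans ?_
  nlinarith

theorem pHwT (h1 : QL.Sw.S_HwE) (h2 : QL.Sw.S_Dl) (h3 : GP.Sv.S_H0) (h4 : GP.Sv.S_H1)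
    (h5 : GP.Sv.S_H2) : HwTStmt := by
  obtain ⟨c, C, hC, hc⟩ := h4
  have hc0 := abs_nonneg c
  refine ⟨6 + |c| + C, by positivity, fun V lam y hT hy => ⟨?_, ?_, ?_⟩⟩
  · have h6 := HwT_all h1 h2 (by norm_num) (HwT_0 h3) hT hy
    rw [zero_add, pow_one, Nat.cast_zero, zero_add, div_one, pow_zero, mul_one] at h6
    refine h6.trans (mul_le_mul_of_nonneg_right ?_ (by linarith [hT.one]))
    linarith
  · have hl := Real.log_nonneg hy
    have h6 := HwT_all h1 h2 (by positivity) (HwT_1 hC hc) hT hy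
    have e : dlV V * (Real.log y ^ (1 + 1) / (((1 : ℕ) : ℝ) + 1)) = dlV V / 2 * Real.log y ^ 2 := by
      norm_num
      ring
    rw [e, pow_one] at h6
    refine h6.trans (mul_le_mul_of_nonneg_right (mul_le_mul_of_nonneg_right ?_ (by linarith [hT.one]))
      (by linarith))
    linarith
  · have hl := Real.log_nonneg hy
    have h6 := HwT_all h1 h2 (by norm_num) (HwT_2 h5) hT hy
    have e : dlV V * (Real.log y ^ (2 + 1) / (((2 : ℕ) : ℝ) + 1)) = dlV V / 3 * Real.log y ^ 3 := by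
      norm_num
      ring
    rw [e] at h6
    refine h6.trans (mul_le_mul_of_nonneg_right (mul_le_mul_of_nonneg_right ?_ (by linarith [hT.one]))
      (by positivity))
    linarith

end Pool.Agent.Lib.MP_9f2731_nt.CG.Ma
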