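import Pool.Agent.Lib.MP_9f2731_nt.CG.Ma.Spec

/-!
MP_9f2731_nt, CG/Ma, module InF: the product of the operators DD and FF acts as the identity on
functions living on [1, R].
-/

namespace Pool.Agent.Lib.MP_9f2731_nt.CG.Ma

open Finset
open Pool.Agent.Lib.MP_9f2731_nt.GP Pool.Agent.Lib.MP_9f2731_nt.GP.Sv Pool.Agent.Lib.MP_9f2731_nt.QL Pool.Agent.Lib.MP_9f2731_nt.QL.Sw

/-- the function vanishes if one coordinate is zero or larger than R -/
private def InF_Sp {ι : Type} (R : ℝ) (Φ : Fn ι) : Prop :=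
  ∀ a : ι → ℕ, (∃ i, a i = 0 ∨ R < (a i : ℝ)) → Φ a = 0

private def InF_Fix {ι : Type} (R : ℝ) (f : Al ι) : Prop := ∀ Φ : Fn ι, InF_Sp R Φ → act f Φ = Φ

private lemma InF_Ph {ι : Type} [Fintype ι] (R : ℝ) (f : ι → ℕ → ℝ) (hf : ∀ i, Sup R (f i)) :
    InF_Sp R (PhF f) := by
  rintro a ⟨i, hi⟩
  unfold PhF
  exact Finset.prod_eq_zero (Finset.mem_univ i) (hf i _ hi)

private lemma InF_mul {ι : Type} {R : ℝ} {f g : Al ι} (hf : InF_Fix R f) (hg : InF_Fix R g) :
    InF_Fix R (f * g) := by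
  intro Φ hΦ
  rw [act_mul, hg Φ hΦ, hf Φ hΦ]

private lemma InF_prod {ι κ : Type} {R : ℝ} (s : Finset κ) (f : κ → Al ι)
    (h : ∀ k ∈ s, InF_Fix R (f k)) : InF_Fix R (∏ k ∈ s, f k) := by
  classical
  induction s using Finset.induction_on with
  | empty =>
    intro Φ _
    rw [Finset.prod_empty, act_one]
  | insert k s hk ih =>
    rw [Finset.prod_insert hk]
    exact InF_mul (h k (mem_insert_self k s)) (ih fun j hj => h j (mem_insert_of_mem hj))

private lemma InF_pow {ι : Type} {R : ℝ} (c : ℝ) (m : ι → ℕ) (K : ℕ) (i : ι)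
    (h : R < ((m i) ^ K : ℕ)) : InF_Fix R (1 - (c • mon m) ^ K) := by
  intro Φ hΦ
  funext a
  rw [act_sub, act_one, smul_pow, ← mon_pow, act_smul, act_mon]
  have h0 : Φ (m ^ K * a) = 0 := by
    apply hΦ
    refine ⟨i, ?_⟩
    rcases Nat.eq_zero_or_pos (a i) with ha | ha
    · left
      rw [Pi.mul_apply, ha, mul_zero]
    · right
      rw [Pi.mul_apply, Pi.pow_apply]
      refine lt_of_lt_of_le h ?_
      exact_mod_cast Nat.le_mul_of_pos_right _ ha
  rw [h0, mul_zero, sub_zero]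

theorem pInF : InFStmt := by
  intro σ _ _ V K R f hR hf
  apply InF_prod (R := R) (QsV V R) _ _ _ (InF_Ph R f hf)
  intro p hp
  have hp2 : 2 ≤ p := (mem_QsV.1 hp).1.two_le
  have hpK : R < ((p ^ K : ℕ) : ℝ) := by
    refine lt_of_lt_of_le hR ?_
    push_cast
    exact pow_le_pow_left₀ (by norm_num) (by exact_mod_cast hp2) K
  have hD : DD (σ := σ) K p * FF K p = ∏ j : σ, ((1 - zz p j ^ K) *
      (1 - xx p (j, true) ^ K) * (1 - xx p (j, false) ^ K)) := by
    unfold DD FF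
    rw [← Finset.prod_mul_distrib]
    refine Finset.prod_congr rfl fun j _ => ?_
    have g1 := mul_neg_geom_sum (zz p j) K
    have g2 := mul_neg_geom_sum (xx p (j, true)) K
    have g3 := mul_neg_geom_sum (xx p (j, false)) K
    rw [← g1, ← g2, ← g3]
    unfold gg
    ring
  rw [hD]
  apply InF_prod
  intro j _
  refine InF_mul (InF_mul ?_ ?_) ?_
  · unfold zz
    refine InF_pow _ _ K (j, true) ?_
    rw [Pi.mul_apply, e_self, e_ne (by simp), mul_one]
    exact hpK
  · unfold xx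
    refine InF_pow _ _ K (j, true) ?_
    rw [e_self]
    exact hpK
  · unfold xx
    refine InF_pow _ _ K (j, false) ?_
    rw [e_self]
    exact hpK

end Pool.Agent.Lib.MP_9f2731_nt.CG.Ma
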