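import Pool.Agent.Lib.MP_9f2731_nt.CG.Ma.Spec

/-!
MP_9f2731_nt, CG/Ma, module LoA: the local factor of the mean over intervals.
-/

namespace Pool.Agent.Lib.MP_9f2731_nt.CG.Ma

open Finset
open Pool.Agent.Lib.MP_9f2731_nt.GP Pool.Agent.Lib.MP_9f2731_nt.GP.Sv Pool.Agent.Lib.MP_9f2731_nt.QL Pool.Agent.Lib.MP_9f2731_nt.QL.Sw

/-- the form `a b + 1` has exactly one zero modulo p -/
private theorem LoA_one (a p : ℕ) (hp : p.Prime) (ha : ¬ p ∣ a) :
    ∃ b0 < p, ∀ b < p, (p ∣ a * b + 1 ↔ b = b0) := by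
  have : Fact p.Prime := ⟨hp⟩
  have ha' : (a : ZMod p) ≠ 0 := by
    rw [Ne, ZMod.natCast_eq_zero_iff]
    exact ha
  have hkey : ∀ b : ℕ, p ∣ a * b + 1 ↔ (b : ZMod p) = -(a : ZMod p)⁻¹ := by
    intro b
    rw [← ZMod.natCast_eq_zero_iff]
    push_cast
    constructor
    · intro h
      have h1 : (a : ZMod p) * b = -1 := by linear_combination h
      calc (b : ZMod p) = (a : ZMod p)⁻¹ * ((a : ZMod p) * b) := by
            rw [← mul_assoc, inv_mul_cancel₀ ha', one_mul]
        _ = _ := by rw [h1]; ring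
    · intro h
      rw [h, mul_neg, mul_inv_cancel₀ ha']
      ring
  refine ⟨(-(a : ZMod p)⁻¹).val, ZMod.val_lt _, fun b hb => ?_⟩
  rw [hkey b]
  constructor
  · intro h
    rw [← h, ZMod.val_natCast, Nat.mod_eq_of_lt hb]
  · intro h
    rw [h, ZMod.natCast_zmod_val]

private theorem LoA_ind (p n : ℕ) : ind p n = 0 ∨ ind p n = 1 := by
  unfold ind
  split_ifs <;> simp

private theorem LoA_pair {ι : Type} (c : ℝ) (hc : c = 0 ∨ c = 1) (X Y : Al ι) :
    (1 - c • X) * (1 - c • Y) = 1 + c • (X * Y - X - Y) := by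
  rcases hc with rfl | rfl
  · simp
  · simp only [one_smul]
    ring

/-- two different forms are not both divisible by p -/
private theorem LoA_uniq {p a b c : ℕ} (hp : p.Prime) (hd : ¬ p ∣ Nat.dist a c)
    (h1 : p ∣ a * b + 1) (h2 : p ∣ c * b + 1) : False := by
  have key : ∀ a c : ℕ, a ≤ c → ¬ p ∣ Nat.dist a c → p ∣ a * b + 1 → p ∣ c * b + 1 → False := by
    intro a c hac hd h1 h2
    obtain ⟨d, rfl⟩ := Nat.exists_eq_add_of_le hac
    have h3 : Nat.dist a (a + d) = d := by
      rw [Nat.dist_eq_sub_of_le (Nat.le_add_right a d)]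
      omega
    rw [h3] at hd
    have h4 : (a + d) * b + 1 = a * b + 1 + d * b := by ring
    rw [h4] at h2
    have h5 : p ∣ d * b := (Nat.dvd_add_right h1).1 h2
    rcases (Nat.Prime.dvd_mul hp).1 h5 with h6 | h6
    · exact hd h6
    · have h8 : p ∣ a * b := Dvd.dvd.mul_left h6 _
      have h9 : p ∣ 1 := (Nat.dvd_add_right h8).1 h1
      exact hp.one_lt.ne' (Nat.dvd_one.1 h9)
  rcases le_total a c with h | h
  · exact key a c h hd h1 h2
  · rw [Nat.dist_comm] at hd
    exact key c a h hd h2 h1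

theorem pLoA : LoAStmt := by
  intro σ _ _ p a hp ha hd
  have hp0 : (p : ℝ) ≠ 0 := by exact_mod_cast hp.ne_zero
  -- the product for one b
  have hb : ∀ b ∈ range p, (1 / (p : ℝ)) • ∏ i : σ × Bool, (1 - ind p (a i.1 * b + 1) • mon (e i p)) =
      (1 / (p : ℝ)) • ((1 : Al (σ × Bool)) + ∑ j : σ, ind p (a j * b + 1) • vv p j) := by
    intro b _
    congr 1
    rw [Fintype.prod_prod_type]
    have h2 : ∀ j : σ, ∏ s : Bool, ((1 : Al (σ × Bool)) - ind p (a j * b + 1) • mon (e (j, s) p))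
        = 1 + ind p (a j * b + 1) • vv p j := by
      intro j
      rw [Fintype.prod_bool, LoA_pair _ (LoA_ind _ _)]
      rfl
    have h3 : (∏ j : σ, ∏ s : Bool, ((1 : Al (σ × Bool)) -
        ind p (a (j, s).1 * b + 1) • mon (e (j, s) p))) =
        ∏ j : σ, (1 + ind p (a j * b + 1) • vv p j) := Finset.prod_congr rfl fun j _ => h2 j
    rw [h3]
    by_cases hex : ∃ j0, p ∣ a j0 * b + 1
    · obtain ⟨j0, hj0⟩ := hex
      have h4 : ∀ j, j ≠ j0 → ind p (a j * b + 1) = 0 := by
        intro j hj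
        unfold ind
        rw [if_neg]
        intro h5
        exact LoA_uniq hp (hd j j0 hj) h5 hj0
      rw [Finset.prod_eq_single j0 (fun j _ hj => by rw [h4 j hj]; simp)
        (fun h => absurd (mem_univ _) h),
        Finset.sum_eq_single j0 (fun j _ hj => by rw [h4 j hj]; simp)
        (fun h => absurd (mem_univ _) h)]
    · push Not at hex
      have h4 : ∀ j, ind p (a j * b + 1) = 0 := by
        intro j
        unfold ind
        rw [if_neg (hex j)]
      simp [h4]
  -- the sum over b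
  have hs : ∀ j : σ, ∑ b ∈ range p, ind p (a j * b + 1) = 1 := by
    intro j
    obtain ⟨b0, hb0, hb1⟩ := LoA_one (a j) p hp (ha j)
    have h2 : ∀ b ∈ range p, ind p (a j * b + 1) = if b = b0 then 1 else 0 := by
      intro b hb
      unfold ind
      simp only [hb1 b (mem_range.1 hb)]
    rw [Finset.sum_congr rfl h2, Finset.sum_ite_eq' (range p) b0, if_pos (mem_range.2 hb0)]
  rw [Finset.sum_congr rfl hb, ← Finset.smul_sum, Finset.sum_add_distrib, Finset.sum_comm]
  have h2 : ∀ j : σ, ∑ b ∈ range p, ind p (a j * b + 1) • (vv p j : Al (σ × Bool)) = vv p j := by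
    intro j
    rw [← Finset.sum_smul, hs j, one_smul]
  rw [Finset.sum_congr rfl fun j _ => h2 j, smul_add, Finset.sum_const, card_range]
  congr 1
  rw [← Nat.cast_smul_eq_nsmul ℝ, smul_smul, one_div, inv_mul_cancel₀ hp0, one_smul]

end Pool.Agent.Lib.MP_9f2731_nt.CG.Ma
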