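import Pool.Agent.Lib.MP_9f2731_nt.CG.Ma.Spec

/-!
MP_9f2731_nt, CG/Ma, module LoC: the local factor times its approximate inverse.
-/

namespace Pool.Agent.Lib.MP_9f2731_nt.CG.Ma

open Finset
open Pool.Agent.Lib.MP_9f2731_nt.GP Pool.Agent.Lib.MP_9f2731_nt.GP.Sv Pool.Agent.Lib.MP_9f2731_nt.QL Pool.Agent.Lib.MP_9f2731_nt.QL.Sw

private theorem LoC_vv {σ : Type} [DecidableEq σ] (p : ℕ) (j : σ) : Nm (vv p j) 3 := by
  unfold vv
  exact (((Nm.mon _).mul (Nm.mon _)).sub (Nm.mon _)).sub (Nm.mon _) |>.mono (by norm_num)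

private theorem LoC_s {σ : Type} [Fintype σ] [DecidableEq σ] (p : ℕ) (c : ℝ) :
    Nm (c • ∑ j : σ, (vv p j : Al (σ × Bool))) (|c| * (3 * (Fintype.card σ : ℝ))) := by
  have h1 : Nm (∑ j : σ, (vv p j : Al (σ × Bool))) (∑ _j : σ, (3 : ℝ)) :=
    Nm.sum univ fun j _ => LoC_vv p j
  have h2 := h1.smul c
  refine h2.mono (le_of_eq ?_)
  rw [Finset.sum_const, Finset.card_univ, nsmul_eq_mul]
  ring

theorem pLoC (hD : GP.Sv.S_LocD) : LoCStmt := by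
  intro n
  obtain ⟨C0, hC0, hD⟩ := hD n
  have hn0 : (0 : ℝ) ≤ n := Nat.cast_nonneg _
  refine ⟨C0 + 9 * n ^ 2 + 3 * n * C0 + 6 * n * (1 + 3 * n + C0) + 1, by positivity, ?_⟩
  intro σ _ _ K p t hσ hK hp ht
  have hp1 : (1 : ℝ) ≤ p := by exact_mod_cast (by omega : 1 ≤ p)
  have hp0 : (0 : ℝ) < p := by linarith
  have hpp : (1 : ℝ) ≤ (p : ℝ) ^ 2 := one_le_pow₀ hp1
  have hσ' : (Fintype.card σ : ℝ) ≤ n := by exact_mod_cast hσ
  have hσ0 : (0 : ℝ) ≤ Fintype.card σ := Nat.cast_nonneg _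
  have hs : Nm ((1 / (p : ℝ)) • ∑ j : σ, (vv p j : Al (σ × Bool))) (3 * n / p) := by
    refine (LoC_s p _).mono ?_
    rw [abs_of_nonneg (by positivity), one_div, inv_mul_eq_div]
    exact div_le_div_of_nonneg_right (by linarith) hp0.le
  have hτ : Nm ((t - 1 / (p : ℝ)) • ∑ j : σ, (vv p j : Al (σ × Bool))) (6 * n / (p : ℝ) ^ 2) := by
    refine (LoC_s p _).mono ?_
    have h1 : |t - 1 / (p : ℝ)| * (3 * (Fintype.card σ : ℝ)) ≤ 2 / (p : ℝ) ^ 2 * (3 * n) :=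
      mul_le_mul ht (by linarith) (by positivity) (by positivity)
    refine h1.trans (le_of_eq ?_)
    ring
  have hρ := hD σ K p hσ hK hp
  have hDD : Nm (DD K p : Al (σ × Bool)) (1 + 3 * n + C0) := by
    have h4 := (Nm.one (ι := σ × Bool)).add (hρ.sub hs)
    have h5 : (1 : Al (σ × Bool)) + ((DD K p : Al (σ × Bool)) - 1 + (1 / (p : ℝ)) • ∑ j : σ, vv p j -
        (1 / (p : ℝ)) • ∑ j : σ, vv p j) = DD K p := by abel
    rw [h5] at h4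
    refine h4.mono ?_
    have h6 : C0 / (p : ℝ) ^ 2 ≤ C0 := div_le_self hC0 hpp
    have h7 : 3 * (n : ℝ) / p ≤ 3 * n := div_le_self (by positivity) hp1
    linarith
  have h5 := ((hρ.sub (hs.mul hs)).add (hs.mul hρ)).add (hτ.mul hDD)
  have h6 : (DD K p : Al (σ × Bool)) - 1 + (1 / (p : ℝ)) • ∑ j : σ, vv p j -
      ((1 / (p : ℝ)) • ∑ j : σ, vv p j) * ((1 / (p : ℝ)) • ∑ j : σ, vv p j) +
      ((1 / (p : ℝ)) • ∑ j : σ, vv p j) *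
        (DD K p - 1 + (1 / (p : ℝ)) • ∑ j : σ, vv p j) +
      ((t - 1 / (p : ℝ)) • ∑ j : σ, vv p j) * DD K p =
      (1 + t • ∑ j : σ, vv p j) * DD K p - 1 := by
    rw [sub_smul]
    ring
  rw [h6] at h5
  refine h5.mono ?_
  have h7 : 3 * (n : ℝ) / p * (C0 / (p : ℝ) ^ 2) ≤ 3 * n * C0 / (p : ℝ) ^ 2 := by
    rw [div_mul_div_comm]
    exact div_le_div_of_nonneg_left (by positivity) (by positivity) (by nlinarith [sq_nonneg (p : ℝ)])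
  have h8 : 3 * (n : ℝ) / p * (3 * n / p) = 9 * n ^ 2 / (p : ℝ) ^ 2 := by
    rw [div_mul_div_comm]
    congr 1 <;> ring
  rw [h8]
  have h9 : C0 / (p : ℝ) ^ 2 + 9 * (n : ℝ) ^ 2 / (p : ℝ) ^ 2 + 3 * n * C0 / (p : ℝ) ^ 2 +
      6 * n / (p : ℝ) ^ 2 * (1 + 3 * n + C0) + 1 / (p : ℝ) ^ 2 =
      (C0 + 9 * n ^ 2 + 3 * n * C0 + 6 * n * (1 + 3 * n + C0) + 1) / (p : ℝ) ^ 2 := by
    ring
  have h10 : 0 ≤ 1 / (p : ℝ) ^ 2 := by positivity
  linarith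

end Pool.Agent.Lib.MP_9f2731_nt.CG.Ma
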