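import Pool.Agent.Lib.MP_9f2731_nt.CG.Ma.SpecE

/-!
MP_9f2731_nt, CG/Ma, module MRF: the inner sums as Moebius sums with logarithmic weights (helper26, after QL/Sw/MR).
-/

namespace Pool.Agent.Lib.MP_9f2731_nt.CG.Ma

open Finset
open Pool.Agent.Lib.MP_9f2731_nt.GP
open Pool.Agent.Lib.MP_9f2731_nt.GP.Sv
open Pool.Agent.Lib.MP_9f2731_nt.QL
open Pool.Agent.Lib.MP_9f2731_nt.QL.Sw

private theorem MRF_sets (V : ℕ) (R : ℝ) (N : ℕ) (hN : N ≤ ⌊R⌋₊) :
    (PqV V R).divisors.filter (fun u => u ≤ N) =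
      ((Icc 1 N).filter (fun n => n.Coprime (V))).filter (fun u => Squarefree u) := by
  ext u
  simp only [mem_filter, Nat.mem_divisors, mem_Icc]
  constructor
  · rintro ⟨⟨hu, h0⟩, huN⟩
    have hpos : 1 ≤ u := Nat.pos_of_dvd_of_pos hu (Nat.pos_of_ne_zero h0)
    refine ⟨⟨⟨hpos, huN⟩, ?_⟩, PqV_squarefree.squarefree_of_dvd hu⟩
    by_contra hc
    obtain ⟨p, hp, hpu, hpW⟩ := Nat.Prime.not_coprime_iff_dvd.1 hc
    have h1 := (mem_QsV.1 ((prime_dvd_PqV hp).1 (hpu.trans hu))).2.1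
    exact h1 hpW
  · rintro ⟨⟨⟨hpos, huN⟩, hco⟩, hsq⟩
    refine ⟨⟨?_, PqV_ne⟩, huN⟩
    rw [← Nat.prod_primeFactors_of_squarefree hsq]
    unfold PqV
    refine Finset.prod_dvd_prod_of_subset _ _ _ fun p hp => ?_
    have hpp := Nat.prime_of_mem_primeFactors hp
    have hpu := Nat.dvd_of_mem_primeFactors hp
    refine mem_QsV.2 ⟨hpp, ?_, ((Nat.le_of_dvd hpos hpu).trans huN).trans hN⟩
    intro h1
    exact Nat.Prime.not_coprime_iff_dvd.2 ⟨p, hpp, hpu, h1⟩ hco

private theorem MRF_zero {y : ℝ} {n : ℕ} (h : n = 0 ∨ y < n) : cw y n = 0 := by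
  unfold cw
  rw [if_neg]
  rintro ⟨h1, h2⟩
  rcases h with h | h
  · omega
  · linarith

theorem pMRF : MRFStmt := by
  intro V R y b hR _ hy
  have hR0 : 0 < R := by linarith
  split_ifs with hb
  · obtain ⟨hb1, hbR⟩ := hb
    have hb0 : (0 : ℝ) < b := by exact_mod_cast hb1
    have hb1' : (1 : ℝ) ≤ b := by exact_mod_cast hb1
    have hy0 : 0 < y := by linarith
    have hN : ⌊y / b⌋₊ ≤ ⌊R⌋₊ := Nat.floor_le_floor ((div_le_self hy0.le hb1').trans hy)
    have h1 : MMF V R (cw y) b = ∑ u ∈ (PqV V R).divisors.filter (fun u => u ≤ ⌊y / b⌋₊),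
        ((ArithmeticFunction.moebius u : ℤ) : ℝ) / u * cw y (u * b) := by
      unfold MMF
      symm
      refine Finset.sum_subset (filter_subset _ _) fun u hu hu' => ?_
      have h2 : ⌊y / b⌋₊ < u := by
        by_contra hc
        exact hu' (mem_filter.2 ⟨hu, not_lt.1 hc⟩)
      have h3 : y / b < u := Nat.lt_of_floor_lt h2
      rw [div_lt_iff₀ hb0] at h3
      rw [MRF_zero (Or.inr (by push_cast; exact h3)), mul_zero]
    have h2 : mwV V 2 (y / b) = ∑ u ∈ ((Icc 1 ⌊y / b⌋₊).filter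
        (fun n => n.Coprime (V))).filter (fun u => Squarefree u),
        ((ArithmeticFunction.moebius u : ℤ) : ℝ) / u * Real.log (y / b / u) ^ 2 := by
      unfold mwV
      symm
      refine Finset.sum_subset (filter_subset _ _) fun u hu hu' => ?_
      have h3 : ¬ Squarefree u := fun hc => hu' (mem_filter.2 ⟨hu, hc⟩)
      rw [ArithmeticFunction.moebius_eq_zero_of_not_squarefree h3]
      simp
    rw [h1, h2, MRF_sets V R _ hN]
    refine Finset.sum_congr rfl fun u hu => ?_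
    rw [mem_filter, mem_filter, mem_Icc] at hu
    obtain ⟨⟨⟨hu1, hu2⟩, -⟩, -⟩ := hu
    have hu0 : (0 : ℝ) < u := by exact_mod_cast hu1
    have hub : (u : ℝ) * b ≤ y := by
      rw [← le_div_iff₀ hb0]
      exact (Nat.le_floor_iff (by positivity)).1 hu2
    unfold cw
    rw [if_pos ⟨Nat.mul_pos hu1 hb1, by push_cast; exact hub⟩, div_div]
    push_cast
    rw [mul_comm (u : ℝ) b]
  · unfold MMF
    refine Finset.sum_eq_zero fun u hu => ?_
    have hu1 : 1 ≤ u := Nat.pos_of_mem_divisors hu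
    rw [MRF_zero, mul_zero]
    by_cases hb1 : 1 ≤ b
    · right
      have h1 : y < b := by
        by_contra hc
        exact hb ⟨hb1, not_lt.1 hc⟩
      have h2 : (1 : ℝ) ≤ u := by exact_mod_cast hu1
      have h3 : (1 : ℝ) ≤ b := by exact_mod_cast hb1
      push_cast
      nlinarith
    · left
      have : b = 0 := by omega
      rw [this, mul_zero]

end Pool.Agent.Lib.MP_9f2731_nt.CG.Ma
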