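import Pool.Agent.Lib.MP_9f2731_nt.CG.Ma.Spec

/-!
MP_9f2731_nt, CG/Ma, module PeF (helper29): the mean over an interval and the mean over a period.
-/

namespace Pool.Agent.Lib.MP_9f2731_nt.CG.Ma

open Finset

open Pool.Agent.Lib.MP_9f2731_nt.GP Pool.Agent.Lib.MP_9f2731_nt.GP.Sv Pool.Agent.Lib.MP_9f2731_nt.QL Pool.Agent.Lib.MP_9f2731_nt.QL.Sw

private noncomputable def pefD (V : ℕ) (R y : ℝ) : Finset ℕ :=
  (PqV V R).divisors.filter (fun d : ℕ => (d : ℝ) ≤ y)

private theorem pefD_card {V : ℕ} {R y : ℝ} (hy : 0 ≤ y) : ((pefD V R y).card : ℝ) ≤ y := by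
  have h1 : pefD V R y ⊆ Icc 1 ⌊y⌋₊ := by
    intro d hd
    unfold pefD at hd
    rw [mem_filter] at hd
    rw [mem_Icc]
    exact ⟨Nat.pos_of_mem_divisors hd.1, Nat.le_floor hd.2⟩
  have h2 := card_le_card h1
  rw [Nat.card_Icc, Nat.add_sub_cancel] at h2
  calc ((pefD V R y).card : ℝ) ≤ (⌊y⌋₊ : ℝ) := by exact_mod_cast h2
    _ ≤ y := Nat.floor_le hy

private theorem pefAF {V : ℕ} {R y : ℝ} {f : ℕ → ℝ} (hf : Sup y f) (n : ℕ) :
    AF V R f n = ∑ d ∈ pefD V R y, (((ArithmeticFunction.moebius d : ℤ) : ℝ) * f d) * ind d n := by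
  unfold AF pefD
  rw [Finset.sum_filter]
  refine Finset.sum_congr rfl fun d _ => ?_
  split_ifs with h
  · ring
  · push Not at h
    rw [hf d (Or.inr h), mul_zero]

private theorem pef_ind {ι : Type} [Fintype ι] (d n : ι → ℕ) :
    ∏ i, ind (d i) (n i) = if ∀ i, d i ∣ n i then 1 else 0 := by
  split_ifs with h
  · refine Finset.prod_eq_one fun i _ => ?_
    unfold ind
    rw [if_pos (h i)]
  · push Not at h
    obtain ⟨i, hi⟩ := h
    refine Finset.prod_eq_zero (mem_univ i) ?_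
    unfold ind
    rw [if_neg hi]

private theorem pef_sum {ι : Type} [Fintype ι] [DecidableEq ι] {V : ℕ} {R : ℝ} {f : ι → ℕ → ℝ}
    {y : ι → ℝ} (hf : ∀ i, Sup (y i) (f i)) (a : ι → ℕ) (B : Finset ℕ) :
    ∑ b ∈ B, ∏ i, AF V R (f i) (a i * b + 1) =
      ∑ d ∈ Fintype.piFinset (fun i : ι => pefD V R (y i)),
        (∏ i, (((ArithmeticFunction.moebius (d i) : ℤ) : ℝ) * f i (d i))) *
          ((B.filter (fun b => ∀ i, d i ∣ a i * b + 1)).card : ℝ) := by
  have h1 : ∀ b ∈ B, ∏ i, AF V R (f i) (a i * b + 1) =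
      ∑ d ∈ Fintype.piFinset (fun i : ι => pefD V R (y i)),
        (∏ i, (((ArithmeticFunction.moebius (d i) : ℤ) : ℝ) * f i (d i))) *
          (if ∀ i, d i ∣ a i * b + 1 then 1 else 0) := by
    intro b _
    have h2 : ∏ i, AF V R (f i) (a i * b + 1) = ∏ i, ∑ d ∈ pefD V R (y i),
        (((ArithmeticFunction.moebius d : ℤ) : ℝ) * f i d) * ind d (a i * b + 1) :=
      Finset.prod_congr rfl fun i _ => pefAF (hf i) _
    rw [h2, Finset.prod_univ_sum]
    refine Finset.sum_congr rfl fun d _ => ?_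
    rw [Finset.prod_mul_distrib, pef_ind]
  rw [Finset.sum_congr rfl h1, Finset.sum_comm]
  refine Finset.sum_congr rfl fun d _ => ?_
  rw [← Finset.mul_sum, Finset.sum_boole]

private theorem pef_coef {ι : Type} [Fintype ι] {B : ℝ} {f : ι → ℕ → ℝ} (hB : ∀ i n, |f i n| ≤ B)
    (d : ι → ℕ) :
    |∏ i, (((ArithmeticFunction.moebius (d i) : ℤ) : ℝ) * f i (d i))| ≤ ∏ _i : ι, B := by
  rw [Finset.abs_prod]
  refine Finset.prod_le_prod (fun i _ => abs_nonneg _) fun i _ => ?_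
  rw [abs_mul]
  have h1 : |((ArithmeticFunction.moebius (d i) : ℤ) : ℝ)| ≤ 1 := by
    have := ArithmeticFunction.abs_moebius_le_one (n := d i)
    exact_mod_cast this
  calc _ ≤ 1 * B := mul_le_mul h1 (hB i _) (abs_nonneg _) zero_le_one
    _ = B := one_mul _

theorem pPeF (hD : DnFStmt) : PeFStmt := by
  intro ι _ _ V R B X P0 c a f y hP0 hP hap hB hf
  rw [pef_sum (fun i => (hf i).2) a, pef_sum (fun i => (hf i).2) a, Finset.sum_div, Finset.mul_sum,
    ← Finset.sum_sub_distrib]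
  have h1 : ∀ d ∈ Fintype.piFinset (fun i : ι => pefD V R (y i)),
      |(∏ i, (((ArithmeticFunction.moebius (d i) : ℤ) : ℝ) * f i (d i))) *
          ((((Icc 1 X).filter (fun b => b ≡ c [MOD P0])).filter
            (fun b => ∀ i, d i ∣ a i * b + 1)).card : ℝ) -
        (X : ℝ) / P0 * ((∏ i, (((ArithmeticFunction.moebius (d i) : ℤ) : ℝ) * f i (d i))) *
          (((range (PqV V R)).filter (fun b => ∀ i, d i ∣ a i * b + 1)).card : ℝ) / PqV V R)|
        ≤ ∏ _i : ι, B := by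
    intro d hd
    rw [Fintype.mem_piFinset] at hd
    have h2 := hD ι V R X P0 c a d hP0 hP hap fun i => by
      have h3 := hd i
      unfold pefD at h3
      rw [mem_filter] at h3
      exact Nat.dvd_of_mem_divisors h3.1
    rw [filter_filter]
    have h4 : ∀ u v w : ℝ, u * v - (X : ℝ) / P0 * (u * w / PqV V R) =
        u * (v - (X : ℝ) / P0 * (w / PqV V R)) := by
      intro u v w
      ring
    rw [h4, abs_mul]
    calc _ ≤ (∏ _i : ι, B) * 1 :=
          mul_le_mul (pef_coef hB d) h2 (abs_nonneg _) ((abs_nonneg _).trans (pef_coef hB d))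
      _ = ∏ _i : ι, B := mul_one _
  refine (Finset.abs_sum_le_sum_abs _ _).trans ((Finset.sum_le_sum h1).trans ?_)
  rw [Finset.sum_const, nsmul_eq_mul, Fintype.card_piFinset, Finset.prod_mul_distrib]
  push_cast
  refine mul_le_mul_of_nonneg_right ?_ ?_
  · refine Finset.prod_le_prod (fun i _ => Nat.cast_nonneg _) fun i _ => pefD_card (hf i).1
  · refine Finset.prod_nonneg fun i _ => ?_
    exact (abs_nonneg _).trans (hB i 0)

end Pool.Agent.Lib.MP_9f2731_nt.CG.Ma
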