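import Pool.Agent.Lib.MP_9f2731_nt.CG.Ma.SpecE

/-!
MP_9f2731_nt, CG/Ma, module PfA: correlation sums of profiles (helper26).
-/

namespace Pool.Agent.Lib.MP_9f2731_nt.CG.Ma

open Finset
open Pool.Agent.Lib.MP_9f2731_nt.GP
open Pool.Agent.Lib.MP_9f2731_nt.GP.Sv
open Pool.Agent.Lib.MP_9f2731_nt.QL
open Pool.Agent.Lib.MP_9f2731_nt.QL.Sw

/-- linearity of MMF -/
private theorem PfA_lin (V : ℕ) (R : ℝ) (α : Fin 3 → ℝ) (F : Fin 3 → ℕ → ℝ) (b : ℕ) :
    MMF V R (fun n => ∑ s, α s * F s n) b = ∑ s, α s * MMF V R (F s) b := by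
  unfold MMF
  simp only [mul_sum]
  rw [sum_comm]
  exact sum_congr rfl fun s _ => sum_congr rfl fun u _ => by ring

/-- bilinearity of TTF -/
private theorem PfA_bil (V : ℕ) (R : ℝ) (α β : Fin 3 → ℝ) (F G : Fin 3 → ℕ → ℝ) (b c : ℕ) :
    TTF V R (fun n => ∑ s, α s * F s n) (fun n => ∑ t, β t * G t n) b c =
      ∑ s, ∑ t, α s * β t * TTF V R (F s) (G t) b c := by
  unfold TTF
  simp only [PfA_lin, mul_sum, sum_mul]
  rw [sum_comm]
  have h : ∀ t : Fin 3, ∑ g ∈ (Icc 1 ⌊R⌋₊).filter (fun n => n.Coprime V), ∑ s : Fin 3,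
      1 / (g : ℝ) * (α s * MMF V R (F s) (g * b)) * (β t * MMF V R (G t) (g * c)) =
      ∑ s : Fin 3, ∑ g ∈ (Icc 1 ⌊R⌋₊).filter (fun n => n.Coprime V),
      α s * β t * (1 / (g : ℝ) * MMF V R (F s) (g * b) * MMF V R (G t) (g * c)) := fun t => by
    rw [sum_comm]
    exact sum_congr rfl fun s _ => sum_congr rfl fun g _ => by ring
  rw [sum_congr rfl fun t _ => h t, sum_comm]

/-- the estimate of a bilinear form -/
private theorem PfA_est (α β : Fin 3 → ℝ) (X Y : Fin 3 → Fin 3 → ℝ) (E : ℝ)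
    (h : ∀ s t, |X s t - Y s t| ≤ E) :
    |∑ s, ∑ t, α s * β t * X s t - ∑ s, ∑ t, α s * β t * Y s t| ≤
      (∑ s, |α s|) * (∑ t, |β t|) * E := by
  rw [← sum_sub_distrib, sum_mul_sum, sum_mul]
  refine (abs_sum_le_sum_abs _ _).trans (sum_le_sum fun s _ => ?_)
  rw [← sum_sub_distrib, sum_mul]
  refine (abs_sum_le_sum_abs _ _).trans (sum_le_sum fun t _ => ?_)
  rw [← mul_sub, abs_mul, abs_mul]
  exact mul_le_mul_of_nonneg_left (h s t) (by positivity)

private theorem PfA_Ee {L a b : ℝ} (hL : 0 ≤ L) : Ee (a * L) (b * L) = L ^ 3 * Ee a b := by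
  unfold Ee
  rw [← min_mul_of_nonneg a b hL, ← max_mul_of_nonneg a b hL]
  ring

/-- cutoffs of profiles -/
private theorem PfA_cut {R be : ℝ} (hR : 2 ≤ R) (h : 0 ≤ be ∧ be ≤ 1) :
    1 ≤ R ^ be ∧ R ^ be ≤ R ∧ Real.log (R ^ be) = be * Real.log R := by
  refine ⟨Real.one_le_rpow (by linarith) h.1, ?_, Real.log_rpow (by linarith) be⟩
  calc R ^ be ≤ R ^ (1 : ℝ) := Real.rpow_le_rpow_of_exponent_le (by linarith) h.2
    _ = R := Real.rpow_one R

theorem pPfA (h1 : TTmStmt) (h2 : TTuStmt) (h3 : TTrStmt) : PfAStmt := by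
  obtain ⟨C1, hC1, h1⟩ := h1
  obtain ⟨C2, hC2, h2⟩ := h2
  obtain ⟨C3, hC3, h3⟩ := h3
  refine ⟨C1 + C2 + C3, by positivity, fun V lam R P Q hT hR hP hQ => ?_⟩
  have hM : 0 ≤ P.M * Q.M :=
    mul_nonneg (sum_nonneg fun _ _ => abs_nonneg _) (sum_nonneg fun _ _ => abs_nonneg _)
  have hlR : 0 ≤ Real.log R := Real.log_nonneg (by linarith)
  have hlam := hT.one
  have hδ := dlV_pos hT.pos
  have hQ0 : 0 ≤ lam ^ 6 * (1 + Real.log R) ^ 2 := by positivity
  have key : ∀ (C E : ℝ), C ≤ C1 + C2 + C3 → 0 ≤ E →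
      P.M * Q.M * (C * E) ≤ (C1 + C2 + C3) * (P.M * Q.M) * E := fun C E hC hE => by
    have h4 : 0 ≤ P.M * Q.M * E := mul_nonneg hM hE
    nlinarith
  refine ⟨?_, fun b c => ?_, fun p b c hp hpR => ?_⟩
  · -- main term
    have e1 : TTF V R (pfn P R) (pfn Q R) 1 1 =
        ∑ s, ∑ t, P.co s * Q.co t * TTF V R (cw (R ^ P.be s)) (cw (R ^ Q.be t)) 1 1 :=
      PfA_bil V R P.co Q.co (fun s => cw (R ^ P.be s)) (fun t => cw (R ^ Q.be t)) 1 1
    have e2 : (Real.log R) ^ 3 / dlV V * ip P Q =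
        ∑ s, ∑ t, P.co s * Q.co t *
          (4 / dlV V * Ee (Real.log (R ^ P.be s)) (Real.log (R ^ Q.be t))) := by
      unfold ip
      rw [mul_sum]
      refine sum_congr rfl fun s _ => ?_
      rw [mul_sum]
      refine sum_congr rfl fun t _ => ?_
      rw [(PfA_cut hR (hP s)).2.2, (PfA_cut hR (hQ t)).2.2, PfA_Ee hlR]
      ring
    rw [e1, e2]
    refine (PfA_est P.co Q.co _ _ (C1 * (lam ^ 6 * (1 + Real.log R) ^ 2)) fun s t => ?_).trans
      (key C1 _ (by linarith) hQ0)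
    obtain ⟨a1, a2, -⟩ := PfA_cut hR (hP s)
    obtain ⟨b1, b2, -⟩ := PfA_cut hR (hQ t)
    exact h1 V lam R _ _ hT hR a1 a2 b1 b2
  · -- upper bound
    have e1 : TTF V R (pfn P R) (pfn Q R) b c =
        ∑ s, ∑ t, P.co s * Q.co t * TTF V R (cw (R ^ P.be s)) (cw (R ^ Q.be t)) b c :=
      PfA_bil V R P.co Q.co (fun s => cw (R ^ P.be s)) (fun t => cw (R ^ Q.be t)) b c
    have hE : 0 ≤ (Real.log R) ^ 3 / dlV V + lam ^ 6 * (1 + Real.log R) ^ 2 := by positivity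
    have h4 := PfA_est P.co Q.co (fun s t => TTF V R (cw (R ^ P.be s)) (cw (R ^ Q.be t)) b c)
      (fun _ _ => 0) (C2 * ((Real.log R) ^ 3 / dlV V + lam ^ 6 * (1 + Real.log R) ^ 2)) fun s t => by
        rw [sub_zero]
        obtain ⟨-, a2, -⟩ := PfA_cut hR (hP s)
        obtain ⟨-, b2, -⟩ := PfA_cut hR (hQ t)
        exact h2 V lam R _ _ b c hT hR a2 b2
    simp only [mul_zero, sum_const_zero, sub_zero] at h4
    rw [e1]
    exact h4.trans (key C2 _ (by linarith) hE)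
  · -- differences
    have e0 : ∀ (P : Pf), (fun n => pfn P R n - pfn P R (p * n)) =
        fun n => ∑ s, P.co s * (cw (R ^ P.be s) n - cw (R ^ P.be s) (p * n)) := fun P => by
      funext n
      unfold pfn
      rw [← sum_sub_distrib]
      exact sum_congr rfl fun s _ => by ring
    have e1 : TTF V R (fun n => pfn P R n - pfn P R (p * n)) (fun n => pfn Q R n - pfn Q R (p * n)) b c =
        ∑ s, ∑ t, P.co s * Q.co t * TTF V R (fun n => cw (R ^ P.be s) n - cw (R ^ P.be s) (p * n))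
          (fun n => cw (R ^ Q.be t) n - cw (R ^ Q.be t) (p * n)) b c := by
      rw [e0 P, e0 Q]
      exact PfA_bil V R P.co Q.co (fun s n => cw (R ^ P.be s) n - cw (R ^ P.be s) (p * n))
        (fun t n => cw (R ^ Q.be t) n - cw (R ^ Q.be t) (p * n)) b c
    have hE : 0 ≤ Real.log R * (Real.log p) ^ 2 / dlV V + lam ^ 6 * (1 + Real.log R) ^ 2 := by positivity
    have h4 := PfA_est P.co Q.co (fun s t => TTF V R (fun n => cw (R ^ P.be s) n - cw (R ^ P.be s) (p * n))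
          (fun n => cw (R ^ Q.be t) n - cw (R ^ Q.be t) (p * n)) b c)
      (fun _ _ => 0) (C3 * (Real.log R * (Real.log p) ^ 2 / dlV V + lam ^ 6 * (1 + Real.log R) ^ 2))
      fun s t => by
        rw [sub_zero]
        obtain ⟨-, a2, -⟩ := PfA_cut hR (hP s)
        obtain ⟨-, b2, -⟩ := PfA_cut hR (hQ t)
        exact h3 V lam R _ _ p b c hT hR a2 b2 hp hpR
    simp only [mul_zero, sum_const_zero, sub_zero] at h4
    rw [e1]
    exact h4.trans (key C3 _ (by linarith) hE)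

end Pool.Agent.Lib.MP_9f2731_nt.CG.Ma
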