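import Pool.Agent.Lib.MP_9f2731_nt.CG.Ma.SpecE

/-!
MP_9f2731_nt, CG/Ma, module PfB (helper29): bounds for the weight function of a profile.
-/

namespace Pool.Agent.Lib.MP_9f2731_nt.CG.Ma

open Finset

open Pool.Agent.Lib.MP_9f2731_nt.GP Pool.Agent.Lib.MP_9f2731_nt.GP.Sv Pool.Agent.Lib.MP_9f2731_nt.QL Pool.Agent.Lib.MP_9f2731_nt.QL.Sw

private theorem pfb_nonneg (y : ℝ) (n : ℕ) : 0 ≤ cw y n := by
  unfold cw
  split_ifs
  · exact sq_nonneg _
  · exact le_rfl

private theorem pfb_le {R β : ℝ} (hR : 1 ≤ R) (h0 : 0 ≤ β) (h1 : β ≤ 1) (n : ℕ) :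
    cw (R ^ β) n ≤ (Real.log R) ^ 2 := by
  unfold cw
  have hR0 : 0 < R := by linarith
  have hl : 0 ≤ Real.log R := Real.log_nonneg hR
  split_ifs with h
  · obtain ⟨hn, hy⟩ := h
    have hn0 : (0 : ℝ) < n := by exact_mod_cast hn
    have hn1 : (1 : ℝ) ≤ n := by exact_mod_cast hn
    have h2 : 0 ≤ Real.log (R ^ β / n) := by
      apply Real.log_nonneg
      rw [le_div_iff₀ hn0, one_mul]
      exact hy
    have h3 : Real.log (R ^ β / n) ≤ Real.log R := by
      rw [Real.log_div (Real.rpow_pos_of_pos hR0 β).ne' hn0.ne', Real.log_rpow hR0]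
      have h4 : 0 ≤ Real.log (n : ℝ) := Real.log_nonneg hn1
      have h5 : β * Real.log R ≤ 1 * Real.log R := mul_le_mul_of_nonneg_right h1 hl
      linarith
    exact pow_le_pow_left₀ h2 h3 2
  · exact sq_nonneg _

theorem pPfB : PfBStmt := by
  intro P R hR hP
  have hR0 : 0 < R := by linarith
  refine ⟨?_, ?_, ?_⟩
  · intro n
    unfold pfn Pf.M
    rw [Finset.sum_mul]
    refine (Finset.abs_sum_le_sum_abs _ _).trans (Finset.sum_le_sum fun s _ => ?_)
    rw [abs_mul, abs_of_nonneg (pfb_nonneg _ n)]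
    exact mul_le_mul_of_nonneg_left (pfb_le hR (hP s).1 (hP s).2 n) (abs_nonneg _)
  · intro β hβ n hn
    unfold pfn
    refine Finset.sum_eq_zero fun s _ => ?_
    have h1 : cw (R ^ P.be s) n = 0 := by
      unfold cw
      rw [if_neg]
      rintro ⟨h2, h3⟩
      rcases hn with h | h
      · omega
      · have h4 : R ^ P.be s ≤ R ^ β := Real.rpow_le_rpow_of_exponent_le hR (hβ s)
        linarith
    rw [h1, mul_zero]
  · unfold pfn im
    rw [Finset.mul_sum]
    refine Finset.sum_congr rfl fun s _ => ?_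
    have h1 : (1 : ℝ) ≤ R ^ P.be s := Real.one_le_rpow hR (hP s).1
    unfold cw
    rw [if_pos ⟨le_rfl, by rw [Nat.cast_one]; exact h1⟩, Nat.cast_one, div_one, Real.log_rpow hR0]
    ring

end Pool.Agent.Lib.MP_9f2731_nt.CG.Ma
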