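import Pool.Agent.Lib.MP_9f2731_nt.CG.Ma.Spec

/-!
MP_9f2731_nt, CG/Ma, module S2F (helper29): the mean value of the product of the sieve sums over a set which is well
distributed in residue classes.
-/

namespace Pool.Agent.Lib.MP_9f2731_nt.CG.Ma

open Finset

open Pool.Agent.Lib.MP_9f2731_nt.GP Pool.Agent.Lib.MP_9f2731_nt.GP.Sv Pool.Agent.Lib.MP_9f2731_nt.QL Pool.Agent.Lib.MP_9f2731_nt.QL.Sw

private theorem s2f_pair {σ : Type} [Fintype σ] (g : σ × Bool → ℝ) :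
    ∏ i, g i = ∏ j : σ, (g (j, true) * g (j, false)) := by
  rw [Fintype.prod_prod_type]
  refine Finset.prod_congr rfl fun j _ => ?_
  rw [Fintype.prod_bool]

private theorem s2f_inv {p : ℕ} (hp : p.Prime) :
    |1 / ((p : ℝ) - 1) - 1 / (p : ℝ)| ≤ 2 / (p : ℝ) ^ 2 := by
  have h2 : (2 : ℝ) ≤ p := by exact_mod_cast hp.two_le
  have h0 : (0 : ℝ) < p := by linarith
  have h1 : (0 : ℝ) < (p : ℝ) - 1 := by linarith
  have e1 : 1 / ((p : ℝ) - 1) - 1 / (p : ℝ) = 1 / (((p : ℝ) - 1) * p) := by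
    field_simp
    ring
  rw [e1, abs_of_pos (by positivity), div_le_div_iff₀ (by positivity) (by positivity)]
  nlinarith

theorem pS2F (hLo : LoBStmt) (hSu : SuFStmt) (hSp : SpFStmt) (hEr : ErFStmt) : S2FStmt := by
  intro n
  obtain ⟨C, hC, hS⟩ := hSu n
  refine ⟨C, hC, ?_⟩
  intro σ _ _ V w a0 R B T a 𝒷 err f y hn hw hV hR h0 ha hd herr hE hB hf hT
  have hsup : ∀ i, Sup R (f i) := by
    intro i m hm
    refine (hf i).2.2 m ?_
    rcases hm with h | h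
    · exact Or.inl h
    · exact Or.inr (lt_of_le_of_lt (hf i).2.1 h)
  have h1 := hSp (σ × Bool) V R B a0 (fun i => a i.1) 𝒷 err f y (fun p hp => (h0 p hp).2)
    (fun i p hp => (ha i.1 p hp).1) (fun i p hp => (ha i.1 p hp).2) herr hE hB
    (fun i => ⟨(hf i).1, (hf i).2.2⟩)
  have h2 := hEr (σ × Bool) V R err y herr
  have hcard : Fintype.card (σ × Bool) = 2 * Fintype.card σ := by
    rw [Fintype.card_prod, Fintype.card_bool, mul_comm]
  rw [hcard] at h1 h2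
  have h4 : ∏ p ∈ QsV V R, ∑ b ∈ range p, u2 a0 p b • ∏ i : σ × Bool,
      (1 - ind p (a i.1 * b + 1) • mon (e i p)) =
      ∏ p ∈ QsV V R, (1 + (1 / ((p : ℝ) - 1)) • ∑ j : σ, vv p j) := by
    refine Finset.prod_congr rfl fun p hp => ?_
    exact hLo σ p a0 a (mem_QsV.1 hp).1 (h0 p hp).2 (fun j => (ha j p hp).1)
      (fun j => (ha j p hp).2) (fun j k hjk => hd j k hjk p hp)
  rw [h4] at h1
  have h5 := hS σ V w R (fun p => 1 / ((p : ℝ) - 1)) f T hn hw hV hR (fun p hp =>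
    ⟨(h0 p hp).1, s2f_inv (mem_QsV.1 hp).1⟩) hsup hT
  have e1 : ∀ b : ℕ, ∏ j, (AF V R (f (j, true)) (a j * b + 1) * AF V R (f (j, false)) (a j * b + 1)) =
      ∏ i : σ × Bool, AF V R (f i) (a i.1 * b + 1) := by
    intro b
    rw [s2f_pair]
  simp_rw [e1]
  have hX : (0 : ℝ) ≤ (𝒷.card : ℝ) := Nat.cast_nonneg _
  have hBn : 0 ≤ B ^ (2 * Fintype.card σ) := by
    rw [pow_mul]
    exact pow_nonneg (sq_nonneg B) _
  set S := ∑ b ∈ 𝒷, ∏ i : σ × Bool, AF V R (f i) (a i.1 * b + 1)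
  set A := act (∏ p ∈ QsV V R, (1 + (1 / ((p : ℝ) - 1)) • ∑ j : σ, vv p j)) (PhF f) 1
  set M := ∏ j : σ, TTF V R (f (j, true)) (f (j, false)) 1 1
  have h6 : S - (𝒷.card : ℝ) * M = (S - (𝒷.card : ℝ) * A) + (𝒷.card : ℝ) * (A - M) := by ring
  rw [h6]
  refine (abs_add_le _ _).trans ?_
  rw [abs_mul, abs_of_nonneg hX, add_comm]
  exact add_le_add (mul_le_mul_of_nonneg_left h5 hX) (h1.trans (mul_le_mul_of_nonneg_left h2 hBn))

end Pool.Agent.Lib.MP_9f2731_nt.CG.Ma
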