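import Pool.Agent.Lib.MP_9f2731_nt.CG.Ma.Spec

/-!
MP_9f2731_nt, CG/Ma, module SuF: the main term of a correlation sum with general weights.
-/

namespace Pool.Agent.Lib.MP_9f2731_nt.CG.Ma

open Finset
open Pool.Agent.Lib.MP_9f2731_nt.GP Pool.Agent.Lib.MP_9f2731_nt.GP.Sv Pool.Agent.Lib.MP_9f2731_nt.QL
  Pool.Agent.Lib.MP_9f2731_nt.QL.Sw

private theorem SuF_sng {C : ℝ} {V w : ℕ} {R : ℝ} (hC : 0 < C) (hw : 1 ≤ w)
    (h : ∀ p ∈ QsV V R, w < p) :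
    ∏ p ∈ QsV V R, (1 + C / (p : ℝ) ^ 2) ≤ Real.exp (C / w) := by
  have hterm : ∀ p ∈ QsV V R, 1 + C / (p : ℝ) ^ 2 ≤ Real.exp (C / (p : ℝ) ^ 2) := fun p _ => by
    have := Real.add_one_le_exp (C / (p : ℝ) ^ 2)
    linarith
  refine (Finset.prod_le_prod (fun p _ => by positivity) hterm).trans ?_
  rw [← Real.exp_sum]
  refine Real.exp_le_exp.2 ?_
  have hsub : QsV V R ⊆ Ioc w (max w ⌊R⌋₊) := by
    intro p hp
    obtain ⟨h1, h2, h3⟩ := mem_QsV.1 hp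
    rw [Finset.mem_Ioc]
    exact ⟨h p hp, le_trans h3 (le_max_right _ _)⟩
  calc ∑ p ∈ QsV V R, C / (p : ℝ) ^ 2 ≤ ∑ p ∈ Ioc w (max w ⌊R⌋₊), C / (p : ℝ) ^ 2 :=
        Finset.sum_le_sum_of_subset_of_nonneg hsub (fun p _ _ => by positivity)
    _ = C * ∑ p ∈ Ioc w (max w ⌊R⌋₊), ((p : ℝ) ^ 2)⁻¹ := by
        rw [Finset.mul_sum]
        exact Finset.sum_congr rfl fun p _ => div_eq_mul_inv _ _
    _ ≤ C * ((w : ℝ)⁻¹ - ((max w ⌊R⌋₊ : ℕ) : ℝ)⁻¹) := by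
        apply mul_le_mul_of_nonneg_left _ hC.le
        exact sum_Ioc_inv_sq_le_sub (by omega) (le_max_left _ _)
    _ ≤ C * (w : ℝ)⁻¹ := by
        apply mul_le_mul_of_nonneg_left _ hC.le
        have : 0 ≤ ((max w ⌊R⌋₊ : ℕ) : ℝ)⁻¹ := by positivity
        linarith
    _ = C / w := (div_eq_mul_inv _ _).symm

theorem pSuF (h1 : InFStmt) (h2 : TeFStmt) (h3 : LoCStmt) (h4 : GP.Sv.S_Mas) : SuFStmt := by
  intro n
  obtain ⟨C, hC, hloc⟩ := h3 n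
  refine ⟨C, hC, ?_⟩
  intro σ _ _ V w R t f T hn hw hV hR ht hf hT
  obtain ⟨K, hK⟩ : ∃ K : ℕ, R < 2 ^ K := pow_unbounded_of_one_lt R one_lt_two
  have hK2 : R < 2 ^ (K + 2) :=
    hK.trans_le (pow_le_pow_right₀ one_le_two (Nat.le_add_right K 2))
  obtain ⟨Θ, hΘ⟩ : ∃ Θ, Θ = act (∏ p ∈ QsV V R, FF (σ := σ) (K + 2) p) (PhF f) := ⟨_, rfl⟩
  have hΘv : ∀ a, Θ a = ∏ j : σ, TTF V R (f (j, true)) (f (j, false)) (a (j, true)) (a (j, false)) :=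
    fun a => by
      rw [hΘ]
      exact h2 σ V (K + 2) R f hR hV hK2 hf a
  have hΘ1 : Θ 1 = ∏ j : σ, TTF V R (f (j, true)) (f (j, false)) 1 1 := by
    rw [hΘv]
    simp
  have hΘb : ∀ a, |Θ a| ≤ ∏ j, T j := by
    intro a
    rw [hΘv, Finset.abs_prod]
    exact Finset.prod_le_prod (fun _ _ => abs_nonneg _) (fun j _ => hT j _ _)
  have hPh : PhF f = act (∏ p ∈ QsV V R, DD (σ := σ) (K + 2) p) Θ := by
    rw [hΘ, ← act_mul, ← Finset.prod_mul_distrib, h1 σ V (K + 2) R f hK2 hf]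
  have hmain : act (∏ p ∈ QsV V R, (1 + t p • ∑ j : σ, vv p j)) (PhF f) 1
      = Θ 1 + act (∏ p ∈ QsV V R, ((1 + t p • ∑ j : σ, vv p j) * DD (K + 2) p) - 1) Θ 1 := by
    rw [act_sub, act_one, hPh, ← act_mul, ← Finset.prod_mul_distrib]
    ring
  have hε : ∀ p ∈ QsV V R,
      Nm ((1 + t p • ∑ j : σ, vv p j) * DD (K + 2) p - 1) (C / (p : ℝ) ^ 2) := by
    intro p hp
    exact hloc σ (K + 2) p (t p) hn (by omega) (mem_QsV.1 hp).1.two_le (ht p hp).2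
  have hnm := h4 (σ × Bool) (QsV V R) _ (fun p => C / (p : ℝ) ^ 2) hε
  have hsng := SuF_sng hC hw (fun p hp => (ht p hp).1) (V := V) (R := R)
  have hTn : 0 ≤ ∏ j, T j := (abs_nonneg _).trans (hΘb 1)
  rw [hmain, hΘ1, add_sub_cancel_left]
  refine (hnm.2 Θ _ hΘb 1).trans ?_
  rw [mul_comm]
  exact mul_le_mul_of_nonneg_left (by linarith) hTn

end Pool.Agent.Lib.MP_9f2731_nt.CG.Ma
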