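import Pool.Agent.Lib.MP_9f2731_nt.CG.Ma.SpecE

/-!
MP_9f2731_nt, CG/Ma/TTm: the main term of the correlation sum of one form for two cutoffs.
-/

namespace Pool.Agent.Lib.MP_9f2731_nt.CG.Ma

open Finset
open Pool.Agent.Lib.MP_9f2731_nt.GP
open Pool.Agent.Lib.MP_9f2731_nt.GP.Sv
open Pool.Agent.Lib.MP_9f2731_nt.QL
open Pool.Agent.Lib.MP_9f2731_nt.QL.Sw

private theorem TTm_symm (V : ℕ) (R : ℝ) (f h : ℕ → ℝ) : TTF V R f h 1 1 = TTF V R h f 1 1 := by
  unfold TTF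
  exact Finset.sum_congr rfl fun g _ => by ring

private theorem TTm_Ee (a b : ℝ) : Ee a b = Ee b a := by
  unfold Ee
  rw [min_comm, max_comm]

/-- the case y ≤ z with abstract constants -/
private theorem TTm_core (h1 : MRFStmt) (V : ℕ) (lam R y z C1 C2 : ℝ) (hT : Tame V lam)
    (hR : 2 ≤ R) (hy : 1 ≤ y) (hyz : y ≤ z) (hz : z ≤ R) (hC1 : 0 < C1) (hC2 : 0 < C2)
    (hM : ∀ t : ℝ, 1 ≤ t → |mwV V 2 t - 2 / dlV V * Real.log t| ≤ C1 * lam ^ 2)
    (hH1 : |hwV V 1 y - dlV V / 2 * Real.log y ^ 2| ≤ C2 * lam * (1 + Real.log y))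
    (hH2 : |hwV V 2 y - dlV V / 3 * Real.log y ^ 3| ≤ C2 * lam * (1 + Real.log y) ^ 2) :
    |TTF V R (cw y) (cw z) 1 1 - 4 / dlV V * Ee (Real.log y) (Real.log z)| ≤
      (C1 ^ 2 + 4 * C1 + 4 * C2) * (lam ^ 6 * (1 + Real.log R) ^ 2) := by
  have hV := hT.pos
  have hlam := hT.one
  have hδ := dlV_pos hV
  have hinv := hT.inv
  obtain ⟨δ, hδe⟩ : ∃ δ, δ = dlV V := ⟨_, rfl⟩
  rw [← hδe] at hM hH1 hH2 hδ hinv ⊢
  have hy0 : 0 < y := by linarith
  have hz0 : 0 < z := by linarith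
  have hR0 : 0 < R := by linarith
  obtain ⟨L, hLe⟩ : ∃ L, L = Real.log R := ⟨_, rfl⟩
  obtain ⟨l, hle⟩ : ∃ l, l = Real.log y := ⟨_, rfl⟩
  obtain ⟨l', hle'⟩ : ∃ l', l' = Real.log z := ⟨_, rfl⟩
  have hl0 : 0 ≤ l := by rw [hle]; exact Real.log_nonneg hy
  have hll : l ≤ l' := by rw [hle, hle']; exact Real.log_le_log hy0 hyz
  have hlL : l' ≤ L := by rw [hLe, hle']; exact Real.log_le_log hz0 hz
  have hL0 : 0 ≤ L := by linarith
  have hlam0 : 0 < lam := by linarith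
  rw [← hle] at hH1 hH2
  rw [← hLe, ← hle, ← hle']
  obtain ⟨S, hS⟩ : ∃ S, S = (Icc 1 ⌊y⌋₊).filter (fun n => n.Coprime V) := ⟨_, rfl⟩
  have hSm : ∀ g ∈ S, 1 ≤ g ∧ (g : ℝ) ≤ y := by
    intro g hg
    rw [hS, mem_filter, mem_Icc] at hg
    exact ⟨hg.1.1, (Nat.le_floor_iff hy0.le).1 hg.1.2⟩
  -- the sum is over g ≤ y
  have hTT : TTF V R (cw y) (cw z) 1 1 =
      ∑ g ∈ S, 1 / (g : ℝ) * mwV V 2 (y / g) * mwV V 2 (z / g) := by
    unfold TTF
    have hsub : S ⊆ (Icc 1 ⌊R⌋₊).filter (fun n => n.Coprime V) := by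
      rw [hS]
      refine Finset.filter_subset_filter _ (Icc_subset_Icc le_rfl ?_)
      exact Nat.floor_le_floor (by linarith)
    rw [← Finset.sum_subset hsub]
    · refine Finset.sum_congr rfl fun g hg => ?_
      obtain ⟨hg1, hgy⟩ := hSm g hg
      rw [mul_one, h1 V R y g (by linarith) hV (by linarith), if_pos ⟨hg1, hgy⟩,
        h1 V R z g (by linarith) hV hz, if_pos ⟨hg1, by linarith⟩]
    · intro g hg hgS
      rw [mul_one, h1 V R y g (by linarith) hV (by linarith), if_neg, mul_zero, zero_mul]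
      rintro ⟨hg1, hgy⟩
      refine hgS ?_
      rw [hS, mem_filter, mem_Icc]
      exact ⟨⟨hg1, Nat.le_floor hgy⟩, (mem_filter.1 hg).2⟩
  obtain ⟨A, hA⟩ : ∃ A : ℕ → ℝ, A = fun g : ℕ => Real.log (y / (g : ℝ)) := ⟨_, rfl⟩
  have hA0 : ∀ g ∈ S, 0 ≤ A g ∧ A g ≤ L := by
    intro g hg
    obtain ⟨hg1, hgy⟩ := hSm g hg
    have hg0 : (0 : ℝ) < g := by exact_mod_cast hg1
    rw [hA]
    refine ⟨Real.log_nonneg ((one_le_div hg0).2 hgy), ?_⟩
    have h2 : Real.log (y / g) ≤ Real.log y :=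
      Real.log_le_log (div_pos hy0 hg0) (div_le_self hy0.le (by exact_mod_cast hg1))
    rw [← hle] at h2
    linarith
  have hB : ∀ g ∈ S, Real.log (z / g) = A g + (l' - l) := by
    intro g hg
    obtain ⟨hg1, hgy⟩ := hSm g hg
    have hg0 : (g : ℝ) ≠ 0 := by positivity
    rw [hA, hle, hle']
    show Real.log (z / g) = Real.log (y / g) + (Real.log z - Real.log y)
    rw [Real.log_div hz0.ne' hg0, Real.log_div hy0.ne' hg0]
    ring
  have hB0 : ∀ g ∈ S, 0 ≤ Real.log (z / g) ∧ Real.log (z / g) ≤ L := by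
    intro g hg
    obtain ⟨hg1, hgy⟩ := hSm g hg
    have hg0 : (0 : ℝ) < g := by exact_mod_cast hg1
    refine ⟨Real.log_nonneg ((one_le_div hg0).2 (by linarith)), ?_⟩
    have h2 : Real.log (z / g) ≤ Real.log z :=
      Real.log_le_log (div_pos hz0 hg0) (div_le_self hz0.le (by exact_mod_cast hg1))
    rw [← hle'] at h2
    linarith
  obtain ⟨H0, hH0⟩ : ∃ H0, H0 = ∑ g ∈ S, 1 / (g : ℝ) := ⟨_, rfl⟩
  have b00 : H0 ≤ 1 + L := by
    have ha := harmonic_floor_le_one_add_log y hy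
    rw [← hle] at ha
    have hb : H0 ≤ ((harmonic ⌊y⌋₊ : ℚ) : ℝ) := by
      rw [hH0, hS, harmonic_eq_sum_Icc]
      push_cast
      refine (Finset.sum_le_sum_of_subset_of_nonneg (Finset.filter_subset _ _) ?_).trans ?_
      · intro i _ _
        positivity
      · exact le_of_eq (Finset.sum_congr rfl fun i _ => one_div _)
    linarith
  -- the first error
  obtain ⟨M, hMe⟩ : ∃ M, M = C1 * lam ^ 2 := ⟨_, rfl⟩
  have hM0 : 0 < M := by rw [hMe]; positivity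
  rw [← hMe] at hM
  obtain ⟨Q, hQ⟩ : ∃ Q, Q = M ^ 2 + 4 / δ * L * M := ⟨_, rfl⟩
  have hQ0 : 0 ≤ Q := by rw [hQ]; positivity
  obtain ⟨P, hP⟩ : ∃ P, P = ∑ g ∈ S, 1 / (g : ℝ) * (2 / δ * A g) * (2 / δ * Real.log (z / g)) :=
    ⟨_, rfl⟩
  have k1 : |TTF V R (cw y) (cw z) 1 1 - P| ≤ Q * (1 + L) := by
    rw [hTT, hP, ← Finset.sum_sub_distrib]
    have h3 : |∑ g ∈ S, (1 / (g : ℝ) * mwV V 2 (y / g) * mwV V 2 (z / g) -
        1 / (g : ℝ) * (2 / δ * A g) * (2 / δ * Real.log (z / g)))| ≤ ∑ g ∈ S, 1 / (g : ℝ) * Q := by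
      refine (Finset.abs_sum_le_sum_abs _ _).trans (Finset.sum_le_sum fun g hg => ?_)
      obtain ⟨hg1, hgy⟩ := hSm g hg
      have hg0 : (0 : ℝ) < g := by exact_mod_cast hg1
      have m1 := hM (y / g) ((one_le_div hg0).2 hgy)
      have m2 := hM (z / g) ((one_le_div hg0).2 (by linarith))
      obtain ⟨a0, aL⟩ := hA0 g hg
      obtain ⟨b0, bL⟩ := hB0 g hg
      have hAg : Real.log (y / g) = A g := by rw [hA]
      rw [hAg] at m1
      have e1 : 1 / (g : ℝ) * mwV V 2 (y / g) * mwV V 2 (z / g) -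
          1 / (g : ℝ) * (2 / δ * A g) * (2 / δ * Real.log (z / g)) =
          1 / (g : ℝ) * ((mwV V 2 (y / g) - 2 / δ * A g) *
            ((mwV V 2 (z / g) - 2 / δ * Real.log (z / g)) + 2 / δ * Real.log (z / g)) +
            2 / δ * A g * (mwV V 2 (z / g) - 2 / δ * Real.log (z / g))) := by ring
      rw [e1, abs_mul, abs_of_pos (show 0 < 1 / (g : ℝ) by positivity)]
      refine mul_le_mul_of_nonneg_left ?_ (by positivity)
      refine (abs_add_le _ _).trans ?_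
      rw [abs_mul, abs_mul (2 / δ * A g)]
      have n1 : |(mwV V 2 (z / g) - 2 / δ * Real.log (z / g)) + 2 / δ * Real.log (z / g)| ≤
          M + 2 / δ * L := by
        refine (abs_add_le _ _).trans (add_le_add m2 ?_)
        rw [abs_of_nonneg (by positivity)]
        exact mul_le_mul_of_nonneg_left bL (by positivity)
      have n2 : |2 / δ * A g| ≤ 2 / δ * L := by
        rw [abs_of_nonneg (by positivity)]
        exact mul_le_mul_of_nonneg_left aL (by positivity)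
      have n3 := mul_le_mul m1 n1 (abs_nonneg _) hM0.le
      have n4 := mul_le_mul n2 m2 (abs_nonneg _) (by positivity)
      rw [hQ]
      have e2 : M ^ 2 + 4 / δ * L * M = M * (M + 2 / δ * L) + 2 / δ * L * M := by ring
      linarith
    refine h3.trans ?_
    rw [← Finset.sum_mul, ← hH0, mul_comm]
    exact mul_le_mul_of_nonneg_left b00 hQ0
  -- the main term
  have hw1 : hwV V 1 y = ∑ g ∈ S, 1 / (g : ℝ) * A g := by
    rw [hS, hA]
    unfold hwV
    exact Finset.sum_congr rfl fun g _ => by rw [pow_one]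
  have hw2 : hwV V 2 y = ∑ g ∈ S, 1 / (g : ℝ) * A g ^ 2 := by
    rw [hS, hA]
    rfl
  have hPe : P = 4 / δ ^ 2 * (hwV V 2 y + (l' - l) * hwV V 1 y) := by
    rw [hP, hw1, hw2, Finset.mul_sum, ← Finset.sum_add_distrib, Finset.mul_sum]
    refine Finset.sum_congr rfl fun g hg => ?_
    rw [hB g hg]
    ring
  have hEe : Ee l l' = l ^ 2 * (3 * l' - l) / 6 := by
    unfold Ee
    rw [min_eq_left hll, max_eq_right hll]
  have k2 : |P - 4 / δ * Ee l l'| ≤ 4 / δ ^ 2 * (C2 * lam * (1 + L) ^ 2) := by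
    have e1 : P - 4 / δ * Ee l l' = 4 / δ ^ 2 * ((hwV V 2 y - δ / 3 * l ^ 3) +
        (l' - l) * (hwV V 1 y - δ / 2 * l ^ 2)) := by
      rw [hPe, hEe]
      field_simp
      ring
    rw [e1, abs_mul, abs_of_pos (show 0 < 4 / δ ^ 2 by positivity)]
    refine mul_le_mul_of_nonneg_left ?_ (by positivity)
    refine (abs_add_le _ _).trans ?_
    rw [abs_mul, abs_of_nonneg (show 0 ≤ l' - l by linarith)]
    have n1 := mul_le_mul_of_nonneg_left hH1 (show 0 ≤ l' - l by linarith)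
    have n2 : C2 * lam * (1 + l) ^ 2 + (l' - l) * (C2 * lam * (1 + l)) =
        C2 * lam * ((1 + l) * (1 + l')) := by ring
    have n3 : (1 + l) * (1 + l') ≤ (1 + L) ^ 2 := by
      rw [pow_two]
      exact mul_le_mul (by linarith) (by linarith) (by linarith) (by linarith)
    have n4 := mul_le_mul_of_nonneg_left n3 (show 0 ≤ C2 * lam by positivity)
    linarith
  -- sizes
  have hinv0 : 0 < 1 / δ := by positivity
  have p1 : Q * (1 + L) ≤ (C1 ^ 2 + 4 * C1) * (lam ^ 6 * (1 + L) ^ 2) := by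
    have q1 : 4 / δ * L * M ≤ 4 * C1 * (lam ^ 6 * (1 + L)) := by
      have e1 : 4 / δ * L * M = 4 * C1 * ((1 / δ) * lam ^ 2 * L) := by rw [hMe]; ring
      rw [e1]
      refine mul_le_mul_of_nonneg_left ?_ (by positivity)
      have r1 : 1 / δ * lam ^ 2 ≤ lam * lam ^ 2 := mul_le_mul_of_nonneg_right hinv (by positivity)
      have r2 : lam * lam ^ 2 = lam ^ 3 := by ring
      have r3 : lam ^ 3 ≤ lam ^ 6 := pow_le_pow_right₀ hlam (by norm_num)
      exact mul_le_mul (by linarith) (by linarith) hL0 (by positivity)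
    have q2 : M ^ 2 ≤ C1 ^ 2 * (lam ^ 6 * (1 + L)) := by
      have e1 : M ^ 2 = C1 ^ 2 * lam ^ 4 := by rw [hMe]; ring
      rw [e1]
      refine mul_le_mul_of_nonneg_left ?_ (by positivity)
      have r3 : lam ^ 4 ≤ lam ^ 6 := pow_le_pow_right₀ hlam (by norm_num)
      have r4 : lam ^ 6 ≤ lam ^ 6 * (1 + L) :=
        le_mul_of_one_le_right (by positivity) (by linarith)
      linarith
    have q3 : Q ≤ (C1 ^ 2 + 4 * C1) * (lam ^ 6 * (1 + L)) := by
      rw [hQ]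
      linarith
    calc Q * (1 + L) ≤ (C1 ^ 2 + 4 * C1) * (lam ^ 6 * (1 + L)) * (1 + L) :=
          mul_le_mul_of_nonneg_right q3 (by linarith)
      _ = _ := by ring
  have p2 : 4 / δ ^ 2 * (C2 * lam * (1 + L) ^ 2) ≤ 4 * C2 * (lam ^ 6 * (1 + L) ^ 2) := by
    have e1 : 4 / δ ^ 2 * (C2 * lam * (1 + L) ^ 2) = 4 * C2 * ((1 / δ) ^ 2 * lam * (1 + L) ^ 2) := by
      ring
    rw [e1]
    refine mul_le_mul_of_nonneg_left ?_ (by positivity)
    refine mul_le_mul_of_nonneg_right ?_ (by positivity)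
    have r1 : (1 / δ) ^ 2 ≤ lam ^ 2 := pow_le_pow_left₀ hinv0.le hinv 2
    have r2 : (1 / δ) ^ 2 * lam ≤ lam ^ 2 * lam := mul_le_mul_of_nonneg_right r1 hlam0.le
    have r3 : lam ^ 2 * lam = lam ^ 3 := by ring
    have r4 : lam ^ 3 ≤ lam ^ 6 := pow_le_pow_right₀ hlam (by norm_num)
    linarith
  have e3 : TTF V R (cw y) (cw z) 1 1 - 4 / δ * Ee l l' =
      (TTF V R (cw y) (cw z) 1 1 - P) + (P - 4 / δ * Ee l l') := by ring
  rw [e3]
  refine (abs_add_le _ _).trans ?_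
  have e4 : (C1 ^ 2 + 4 * C1 + 4 * C2) * (lam ^ 6 * (1 + L) ^ 2) =
      (C1 ^ 2 + 4 * C1) * (lam ^ 6 * (1 + L) ^ 2) + 4 * C2 * (lam ^ 6 * (1 + L) ^ 2) := by ring
  linarith

theorem pTTm (h1 : MRFStmt) (h2 : M2TStmt) (h3 : HwTStmt) : TTmStmt := by
  obtain ⟨C1, hC1, hM⟩ := h2
  obtain ⟨C2, hC2, hH⟩ := h3
  refine ⟨C1 ^ 2 + 4 * C1 + 4 * C2, by positivity, ?_⟩
  intro V lam R y z hT hR hy hyR hz hzR
  rcases le_total y z with hyz | hyz
  · exact TTm_core h1 V lam R y z C1 C2 hT hR hy hyz hzR hC1 hC2 (fun t ht => hM V lam t hT ht)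
      (hH V lam y hT hy).2.1 (hH V lam y hT hy).2.2
  · rw [TTm_symm, TTm_Ee]
    exact TTm_core h1 V lam R z y C1 C2 hT hR hz hyz hyR hC1 hC2 (fun t ht => hM V lam t hT ht)
      (hH V lam z hT hz).2.1 (hH V lam z hT hz).2.2

end Pool.Agent.Lib.MP_9f2731_nt.CG.Ma
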