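import Pool.Agent.Lib.MP_9f2731_nt.CG.Ma.SpecE

/-!
MP_9f2731_nt, CG/Ma, module TTr: correlation sums of differences (helper26).
-/

namespace Pool.Agent.Lib.MP_9f2731_nt.CG.Ma

open Finset
open Pool.Agent.Lib.MP_9f2731_nt.GP
open Pool.Agent.Lib.MP_9f2731_nt.GP.Sv
open Pool.Agent.Lib.MP_9f2731_nt.QL
open Pool.Agent.Lib.MP_9f2731_nt.QL.Sw

/-- the shifted cutoff -/
private theorem TTr_cw (y : ℝ) {p : ℕ} (hp : 1 ≤ p) (n : ℕ) : cw y (p * n) = cw (y / p) n := by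
  have hp0 : (0 : ℝ) < p := by exact_mod_cast hp
  unfold cw
  have h1 : 1 ≤ p * n ↔ 1 ≤ n := by
    constructor
    · intro h
      by_contra hn
      have : n = 0 := by omega
      subst this
      simp at h
    · intro h
      exact Nat.mul_pos hp h
  have h2 : ((p * n : ℕ) : ℝ) ≤ y ↔ (n : ℝ) ≤ y / p := by
    rw [le_div_iff₀ hp0, Nat.cast_mul, mul_comm]
  by_cases hn : 1 ≤ n ∧ (n : ℝ) ≤ y / p
  · rw [if_pos hn, if_pos ⟨h1.2 hn.1, h2.2 hn.2⟩, Nat.cast_mul, div_div]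
  · rw [if_neg hn, if_neg fun h => hn ⟨h1.1 h.1, h2.1 h.2⟩]

/-- linearity -/
private theorem TTr_lin (V : ℕ) (R y : ℝ) {p : ℕ} (hp : 1 ≤ p) (b : ℕ) :
    MMF V R (fun n => cw y n - cw y (p * n)) b = MMF V R (cw y) b - MMF V R (cw (y / p)) b := by
  unfold MMF
  rw [← sum_sub_distrib]
  refine sum_congr rfl fun u _ => ?_
  simp only
  rw [TTr_cw y hp (u * b)]
  ring

/-- the difference of the Moebius sums -/
private theorem TTr_one (h1 : MRFStmt) {C1 : ℝ} {V : ℕ} {lam : ℝ} (hC1 : 0 < C1) (hT : Tame V lam)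
    (h2 : ∀ y : ℝ, 1 ≤ y → |mwV V 2 y - 2 / dlV V * Real.log y| ≤ C1 * lam ^ 2) {R y : ℝ} {p : ℕ} (hR : 2 ≤ R)
    (hy : y ≤ R) (hp : 1 ≤ p) (b : ℕ) :
    |MMF V R (fun n => cw y n - cw y (p * n)) b| ≤
      2 / dlV V * Real.log p + 2 * (C1 * lam ^ 2) := by
  have hp1 : (1 : ℝ) ≤ p := by exact_mod_cast hp
  have hp0 : (0 : ℝ) < p := by linarith
  have hδ := dlV_pos hT.pos
  have hlp : 0 ≤ Real.log p := Real.log_natCast_nonneg p
  have hlam := hT.one
  have hyp : y / p ≤ R := by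
    rcases le_or_gt 0 y with h | h
    · exact (div_le_self h hp1).trans hy
    · have : y / p < 0 := div_neg_of_neg_of_pos h hp0
      linarith
  have hA : 0 ≤ 2 / dlV V * Real.log p := by positivity
  have hB : 0 ≤ C1 * lam ^ 2 := by positivity
  rw [TTr_lin V R y hp, h1 V R y b (by linarith) hT.pos hy, h1 V R (y / p) b (by linarith) hT.pos hyp]
  by_cases hb : 1 ≤ b ∧ (b : ℝ) ≤ y
  · have hb1 : (1 : ℝ) ≤ b := by exact_mod_cast hb.1
    have hb0 : (0 : ℝ) < b := by linarith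
    have hy0 : 0 < y := by linarith [hb.2]
    have h3 := h2 (y / b) ((one_le_div hb0).2 hb.2)
    rw [if_pos hb]
    by_cases hc : 1 ≤ b ∧ (b : ℝ) ≤ y / p
    · rw [if_pos hc]
      have h4 := h2 (y / p / b) ((one_le_div hb0).2 hc.2)
      have h5 : Real.log (y / b) - Real.log (y / p / b) = Real.log p := by
        rw [Real.log_div hy0.ne' hb0.ne', Real.log_div (div_pos hy0 hp0).ne' hb0.ne',
          Real.log_div hy0.ne' hp0.ne']
        ring
      have h6 : mwV V 2 (y / b) - mwV V 2 (y / p / b) =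
          (mwV V 2 (y / b) - 2 / dlV V * Real.log (y / b)) -
            (mwV V 2 (y / p / b) - 2 / dlV V * Real.log (y / p / b)) + 2 / dlV V * Real.log p := by
        rw [← h5]
        ring
      rw [h6]
      rw [abs_le] at h3 h4 ⊢
      constructor <;> linarith [h3.1, h3.2, h4.1, h4.2]
    · rw [if_neg hc, sub_zero]
      have hc' : y / p < b := by
        by_contra hno
        exact hc ⟨hb.1, not_lt.1 hno⟩
      have h5 : Real.log (y / b) ≤ Real.log p := by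
        refine Real.log_le_log (div_pos hy0 hb0) ?_
        rw [div_le_iff₀ hb0]
        rw [div_lt_iff₀ hp0] at hc'
        linarith
      have h6 : 0 ≤ Real.log (y / b) := Real.log_nonneg ((one_le_div hb0).2 hb.2)
      have h7 : 2 / dlV V * Real.log (y / b) ≤ 2 / dlV V * Real.log p :=
        mul_le_mul_of_nonneg_left h5 (by positivity)
      have h8 : 0 ≤ 2 / dlV V * Real.log (y / b) := by positivity
      rw [abs_le] at h3 ⊢
      constructor <;> linarith [h3.1, h3.2]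
  · have hc : ¬ (1 ≤ b ∧ (b : ℝ) ≤ y / p) := by
      rintro ⟨h3, h4⟩
      have hb1 : (1 : ℝ) ≤ b := by exact_mod_cast h3
      refine hb ⟨h3, h4.trans ?_⟩
      have h5 : 1 ≤ y / p := hb1.trans h4
      rw [le_div_iff₀ hp0] at h5
      exact div_le_self (by linarith) hp1
    rw [if_neg hb, if_neg hc, sub_zero, abs_zero]
    linarith

theorem pTTr (h1 : MRFStmt) (h2 : M2TStmt) (h3 : HwTStmt) : TTrStmt := by
  obtain ⟨C1, hC1, h2⟩ := h2
  obtain ⟨C2, hC2, h3⟩ := h3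
  refine ⟨8 + 8 * C2 + 8 * C1 ^ 2 + 8 * C1 ^ 2 * C2, by positivity, ?_⟩
  intro V lam R y z p b c hT hR hy hz hp hpR
  have hδ := dlV_pos hT.pos
  have hδ1 := dlV_le_one V
  have hlam := hT.one
  have hinv := hT.inv
  have hp0 : (0 : ℝ) < p := by exact_mod_cast hp
  have hlp : 0 ≤ Real.log p := Real.log_natCast_nonneg p
  have hlR : 0 ≤ Real.log R := Real.log_nonneg (by linarith)
  have hlpR : Real.log p ≤ Real.log R := Real.log_le_log hp0 hpR
  have hh := (h3 V lam R hT (by linarith)).1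
  have hhw : hwV V 0 R ≤ dlV V * Real.log R + C2 * lam := by
    have := (abs_le.1 hh).2
    linarith
  have hhw0 : 0 ≤ hwV V 0 R := by
    unfold hwV
    refine sum_nonneg fun n _ => ?_
    rw [pow_zero, mul_one]
    positivity
  obtain ⟨D, hD⟩ : ∃ D, D = 2 / dlV V * Real.log p + 2 * (C1 * lam ^ 2) := ⟨_, rfl⟩
  have hD0 : 0 ≤ D := by
    rw [hD]
    positivity
  have hf : ∀ n, |MMF V R (fun n => cw y n - cw y (p * n)) n| ≤ D := fun n => by
    rw [hD]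
    exact TTr_one h1 hC1 hT (fun t ht => h2 V lam t hT ht) hR hy hp n
  have hg : ∀ n, |MMF V R (fun n => cw z n - cw z (p * n)) n| ≤ D := fun n => by
    rw [hD]
    exact TTr_one h1 hC1 hT (fun t ht => h2 V lam t hT ht) hR hz hp n
  have h4 : |TTF V R (fun n => cw y n - cw y (p * n)) (fun n => cw z n - cw z (p * n)) b c| ≤
      hwV V 0 R * D ^ 2 := by
    unfold TTF hwV
    rw [sum_mul]
    refine (abs_sum_le_sum_abs _ _).trans (sum_le_sum fun g _ => ?_)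
    rw [abs_mul, abs_mul, abs_of_nonneg (show (0 : ℝ) ≤ 1 / (g : ℝ) by positivity), pow_zero, mul_one,
      mul_assoc, sq]
    exact mul_le_mul_of_nonneg_left (mul_le_mul (hf _) (hg _) (abs_nonneg _) hD0) (by positivity)
  obtain ⟨i, hi⟩ : ∃ i, i = 1 / dlV V := ⟨_, rfl⟩
  have hi0 : 0 < i := by rw [hi]; positivity
  have hil : i ≤ lam := by rw [hi]; exact hinv
  have hδi : dlV V * i = 1 := by rw [hi]; field_simp
  have h5 : D ^ 2 ≤ 8 * i ^ 2 * Real.log p ^ 2 + 8 * C1 ^ 2 * lam ^ 4 := by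
    have h6 : D = 2 * i * Real.log p + 2 * (C1 * lam ^ 2) := by
      rw [hD, hi]
      ring
    rw [h6]
    nlinarith [sq_nonneg (2 * i * Real.log p - 2 * (C1 * lam ^ 2))]
  have h6 : hwV V 0 R * D ^ 2 ≤
      (dlV V * Real.log R + C2 * lam) * (8 * i ^ 2 * Real.log p ^ 2 + 8 * C1 ^ 2 * lam ^ 4) :=
    mul_le_mul hhw h5 (sq_nonneg D) (hhw0.trans hhw)
  have hlam0 : 0 < lam := by linarith
  obtain ⟨Q, hQ⟩ : ∃ Q, Q = lam ^ 6 * (1 + Real.log R) ^ 2 := ⟨_, rfl⟩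
  have hQ0 : 0 ≤ Q := by rw [hQ]; positivity
  have hLL : Real.log R ≤ (1 + Real.log R) ^ 2 := by nlinarith
  have hL2 : Real.log R ^ 2 ≤ (1 + Real.log R) ^ 2 := by nlinarith
  have hL1 : (1 : ℝ) ≤ (1 + Real.log R) ^ 2 := by nlinarith
  have hl3 : lam ^ 3 ≤ lam ^ 6 := pow_le_pow_right₀ hlam (by norm_num)
  have hl4 : lam ^ 4 ≤ lam ^ 6 := pow_le_pow_right₀ hlam (by norm_num)
  have hl5 : lam ^ 5 ≤ lam ^ 6 := pow_le_pow_right₀ hlam (by norm_num)
  have e1 : (dlV V * Real.log R + C2 * lam) * (8 * i ^ 2 * Real.log p ^ 2 + 8 * C1 ^ 2 * lam ^ 4) =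
      8 * (Real.log R * Real.log p ^ 2 * i) + 8 * C2 * (i ^ 2 * lam * Real.log p ^ 2) +
        8 * C1 ^ 2 * (lam ^ 4 * (dlV V * Real.log R)) + 8 * C1 ^ 2 * C2 * lam ^ 5 := by
    have h7 : dlV V * i ^ 2 = i := by
      rw [sq, ← mul_assoc, hδi, one_mul]
    calc (dlV V * Real.log R + C2 * lam) * (8 * i ^ 2 * Real.log p ^ 2 + 8 * C1 ^ 2 * lam ^ 4)
        = 8 * (Real.log R * Real.log p ^ 2 * (dlV V * i ^ 2)) + 8 * C2 * (i ^ 2 * lam * Real.log p ^ 2) +
          8 * C1 ^ 2 * (lam ^ 4 * (dlV V * Real.log R)) + 8 * C1 ^ 2 * C2 * lam ^ 5 := by ring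
      _ = _ := by rw [h7]
  have b1 : i ^ 2 * lam * Real.log p ^ 2 ≤ Q := by
    rw [hQ]
    have h7 : i ^ 2 * lam ≤ lam ^ 3 := by
      have h8 : i ^ 2 ≤ lam ^ 2 := pow_le_pow_left₀ hi0.le hil 2
      calc i ^ 2 * lam ≤ lam ^ 2 * lam := mul_le_mul_of_nonneg_right h8 hlam0.le
        _ = lam ^ 3 := by ring
    have h9 : Real.log p ^ 2 ≤ (1 + Real.log R) ^ 2 :=
      (pow_le_pow_left₀ hlp hlpR 2).trans hL2
    exact mul_le_mul (h7.trans hl3) h9 (by positivity) (by positivity)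
  have b2 : lam ^ 4 * (dlV V * Real.log R) ≤ Q := by
    rw [hQ]
    have h7 : dlV V * Real.log R ≤ Real.log R := mul_le_of_le_one_left hlR hδ1
    exact mul_le_mul hl4 (h7.trans hLL) (by positivity) (by positivity)
  have b3 : lam ^ 5 ≤ Q := by
    rw [hQ]
    calc lam ^ 5 = lam ^ 5 * 1 := (mul_one _).symm
      _ ≤ lam ^ 6 * (1 + Real.log R) ^ 2 := mul_le_mul hl5 hL1 (by norm_num) (by positivity)
  obtain ⟨P, hP⟩ : ∃ P, P = Real.log R * Real.log p ^ 2 * i := ⟨_, rfl⟩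
  have hP0 : 0 ≤ P := by rw [hP]; positivity
  have e2 : Real.log R * Real.log p ^ 2 / dlV V = P := by
    rw [hP, hi]
    ring
  rw [e2, ← hQ]
  refine h4.trans (h6.trans ?_)
  rw [e1, ← hP]
  have c1 : 8 * C2 * (i ^ 2 * lam * Real.log p ^ 2) ≤ 8 * C2 * Q :=
    mul_le_mul_of_nonneg_left b1 (by positivity)
  have c2 : 8 * C1 ^ 2 * (lam ^ 4 * (dlV V * Real.log R)) ≤ 8 * C1 ^ 2 * Q :=
    mul_le_mul_of_nonneg_left b2 (by positivity)
  have c3 : 8 * C1 ^ 2 * C2 * lam ^ 5 ≤ 8 * C1 ^ 2 * C2 * Q :=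
    mul_le_mul_of_nonneg_left b3 (by positivity)
  have c4 : 0 ≤ (8 * C2 + 8 * C1 ^ 2 + 8 * C1 ^ 2 * C2) * P := by positivity
  nlinarith

end Pool.Agent.Lib.MP_9f2731_nt.CG.Ma
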