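import Pool.Agent.Lib.MP_9f2731_nt.CG.Ma.SpecE

/-!
MP_9f2731_nt, CG/Ma/TmA: every V is tame with the bound `2 (1 + log V)^2`.
-/

namespace Pool.Agent.Lib.MP_9f2731_nt.CG.Ma

open Finset
open Pool.Agent.Lib.MP_9f2731_nt.GP
open Pool.Agent.Lib.MP_9f2731_nt.GP.Sv
open Pool.Agent.Lib.MP_9f2731_nt.QL
open Pool.Agent.Lib.MP_9f2731_nt.QL.Sw

theorem pTmA (h1 : Pool.Agent.Lib.MP_9f2731_nt.QL.Sw.S_Dl) : TmAStmt := by
  intro V hV
  obtain ⟨-, d2, d3⟩ := h1 V hV
  have hVr : (1 : ℝ) ≤ V := by exact_mod_cast hV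
  have hv : 0 ≤ Real.log V := Real.log_nonneg hVr
  set v : ℝ := Real.log V with hvdef
  refine ⟨hV, by nlinarith, by nlinarith, ?_, ?_⟩
  · have a1 : ∑ d ∈ V.divisors, |((ArithmeticFunction.moebius d : ℤ) : ℝ)| / d * (1 + Real.log d) ≤
        ∑ d ∈ V.divisors, |((ArithmeticFunction.moebius d : ℤ) : ℝ)| / d * (1 + v) := by
      refine Finset.sum_le_sum fun d hd => ?_
      have hd1 : 0 < d := Nat.pos_of_mem_divisors hd
      have hd2 : d ≤ V := Nat.divisor_le hd
      have hd3 : Real.log d ≤ v :=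
        Real.log_le_log (by exact_mod_cast hd1) (by exact_mod_cast hd2)
      exact mul_le_mul_of_nonneg_left (by linarith) (by positivity)
    rw [← Finset.sum_mul] at a1
    have a2 : (∑ d ∈ V.divisors, |((ArithmeticFunction.moebius d : ℤ) : ℝ)| / d) * (1 + v) ≤
        (1 + 2 * v) * (1 + v) := mul_le_mul_of_nonneg_right d2 (by linarith)
    nlinarith
  · have b1 : ∑ p ∈ V.primeFactors, Real.log p / ((p : ℝ) - 1) ≤
        ∑ p ∈ V.primeFactors, Real.log p := by
      refine Finset.sum_le_sum fun p hp => ?_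
      have hp2 : (2 : ℝ) ≤ p := by exact_mod_cast (Nat.prime_of_mem_primeFactors hp).two_le
      exact div_le_self (Real.log_nonneg (by linarith)) (by linarith)
    have b2 : ∑ p ∈ V.primeFactors, Real.log p = Real.log ((∏ p ∈ V.primeFactors, p : ℕ) : ℝ) := by
      rw [Nat.cast_prod, Real.log_prod]
      intro p hp
      have := (Nat.prime_of_mem_primeFactors hp).pos
      positivity
    have b3 : ∏ p ∈ V.primeFactors, p ≤ V :=
      Nat.le_of_dvd hV (Nat.prod_primeFactors_dvd V)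
    have b4 : 0 < ∏ p ∈ V.primeFactors, p :=
      Finset.prod_pos fun p hp => (Nat.prime_of_mem_primeFactors hp).pos
    have b5 : Real.log ((∏ p ∈ V.primeFactors, p : ℕ) : ℝ) ≤ v :=
      Real.log_le_log (by exact_mod_cast b4) (by exact_mod_cast b3)
    rw [b2] at b1
    nlinarith

end Pool.Agent.Lib.MP_9f2731_nt.CG.Ma
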