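import Pool.Agent.Lib.MP_9f2731_nt.CG.Ma.SpecE

/-!
MP_9f2731_nt, CG/Ma, module TmB (helper29): the bounds for V p.
-/

namespace Pool.Agent.Lib.MP_9f2731_nt.CG.Ma

open Finset

open Pool.Agent.Lib.MP_9f2731_nt.GP Pool.Agent.Lib.MP_9f2731_nt.GP.Sv Pool.Agent.Lib.MP_9f2731_nt.QL Pool.Agent.Lib.MP_9f2731_nt.QL.Sw

private theorem tmb_log {p : ℕ} (hp : p.Prime) : 1 + Real.log p ≤ p := by
  have h0 : (0 : ℝ) < p := by exact_mod_cast hp.pos
  have := Real.log_le_sub_one_of_pos h0
  linarith

private theorem tmb_div {V p : ℕ} (hV : 1 ≤ V) (hp : p.Prime) (hc : p.Coprime V) (F : ℕ → ℝ) :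
    ∑ d ∈ (V * p).divisors, F d = ∑ d ∈ V.divisors, F d + ∑ d ∈ V.divisors, F (d * p) := by
  have h1 : (V * p).divisors = V.divisors ∪ V.divisors.image (fun d => d * p) := by
    ext d
    rw [mem_union, mem_image, Nat.mem_divisors]
    constructor
    · rintro ⟨h2, _⟩
      by_cases hpd : p ∣ d
      · right
        obtain ⟨e, rfl⟩ := hpd
        refine ⟨e, Nat.mem_divisors.2 ⟨?_, by omega⟩, mul_comm _ _⟩
        rw [mul_comm p e] at h2
        exact Nat.dvd_of_mul_dvd_mul_right hp.pos h2
      · left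
        have h3 : d.Coprime p := ((Nat.Prime.coprime_iff_not_dvd hp).2 hpd).symm
        exact Nat.mem_divisors.2 ⟨h3.dvd_of_dvd_mul_right h2, by omega⟩
    · have hne : V * p ≠ 0 := Nat.mul_ne_zero (by omega) hp.ne_zero
      rintro (h2 | ⟨e, h2, rfl⟩)
      · exact ⟨(Nat.dvd_of_mem_divisors h2).trans (Nat.dvd_mul_right V p), hne⟩
      · exact ⟨Nat.mul_dvd_mul_right (Nat.dvd_of_mem_divisors h2) p, hne⟩
  have h2 : Disjoint V.divisors (V.divisors.image (fun d => d * p)) := by
    rw [Finset.disjoint_left]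
    intro d hd hd'
    rw [mem_image] at hd'
    obtain ⟨e, _, rfl⟩ := hd'
    have h3 : p ∣ V := (Nat.dvd_mul_left p e).trans (Nat.dvd_of_mem_divisors hd)
    exact (Nat.Prime.coprime_iff_not_dvd hp).1 hc h3
  rw [h1, Finset.sum_union h2, Finset.sum_image]
  intro a _ b _ hab
  exact Nat.eq_of_mul_eq_mul_right hp.pos hab

theorem pTmB : TmBStmt := by
  intro V p lam hT hp hpV
  have hc : p.Coprime V := (Nat.Prime.coprime_iff_not_dvd hp).2 hpV
  have hp0 : (0 : ℝ) < p := by exact_mod_cast hp.pos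
  have hp2 : (2 : ℝ) ≤ p := by exact_mod_cast hp.two_le
  have hV0 : (0 : ℝ) < V := by exact_mod_cast hT.pos
  have hlam : 1 ≤ lam := hT.one
  refine ⟨?_, by linarith, ?_, ?_, ?_⟩
  · exact Nat.mul_pos hT.pos hp.pos
  · have h1 : dlV (V * p) = dlV V * (((p : ℝ) - 1) / p) := by
      unfold dlV
      rw [Nat.totient_mul hc.symm, Nat.totient_prime hp]
      push_cast
      rw [Nat.cast_sub hp.one_lt.le, Nat.cast_one]
      field_simp
    have h2 : 0 < dlV V := dlV_pos hT.pos
    have h3 : (1 : ℝ) / 2 ≤ ((p : ℝ) - 1) / p := by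
      rw [div_le_div_iff₀ (by norm_num) hp0]
      linarith
    have h4 : dlV V / 2 ≤ dlV (V * p) := by
      rw [h1]
      calc dlV V / 2 = dlV V * (1 / 2) := by ring
        _ ≤ _ := mul_le_mul_of_nonneg_left h3 h2.le
    calc 1 / dlV (V * p) ≤ 1 / (dlV V / 2) := one_div_le_one_div_of_le (by positivity) h4
      _ = 2 * (1 / dlV V) := by field_simp
      _ ≤ 2 * lam := by
        have := hT.inv
        linarith
  · rw [tmb_div hT.pos hp hc]
    have h1 : ∑ d ∈ V.divisors, |((ArithmeticFunction.moebius (d * p) : ℤ) : ℝ)| / ((d * p : ℕ) : ℝ) *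
        (1 + Real.log ((d * p : ℕ) : ℝ)) ≤
        ∑ d ∈ V.divisors, |((ArithmeticFunction.moebius d : ℤ) : ℝ)| / d * (1 + Real.log d) := by
      refine Finset.sum_le_sum fun d hd => ?_
      have hd1 := Nat.pos_of_mem_divisors hd
      have hd0 : (0 : ℝ) < d := by exact_mod_cast hd1
      have hdl : 0 ≤ Real.log (d : ℝ) := Real.log_nonneg (by exact_mod_cast hd1)
      have hpl : 0 ≤ Real.log (p : ℝ) := Real.log_nonneg (by linarith)
      have hcd : d.Coprime p := (Nat.Coprime.coprime_dvd_left (Nat.dvd_of_mem_divisors hd) hc.symm)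
      have h2 : ((ArithmeticFunction.moebius (d * p) : ℤ) : ℝ) =
          -((ArithmeticFunction.moebius d : ℤ) : ℝ) := by
        rw [ArithmeticFunction.isMultiplicative_moebius.map_mul_of_coprime hcd,
          ArithmeticFunction.moebius_apply_prime hp]
        push_cast
        ring
      rw [h2, abs_neg]
      push_cast
      rw [Real.log_mul hd0.ne' hp0.ne']
      have h3 : 1 + (Real.log d + Real.log p) ≤ p * (1 + Real.log d) := by
        have h4 := tmb_log hp
        nlinarith
      calc _ ≤ |((ArithmeticFunction.moebius d : ℤ) : ℝ)| / (d * p) * (p * (1 + Real.log d)) :=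
            mul_le_mul_of_nonneg_left h3 (by positivity)
        _ = _ := by
          field_simp
    have h5 := hT.sum
    linarith
  · have h1 : (V * p).primeFactors = insert p V.primeFactors := by
      rw [Nat.primeFactors_mul (by have := hT.pos; omega) hp.ne_zero, hp.primeFactors, Finset.union_comm,
        Finset.insert_eq]
    have h2 : p ∉ V.primeFactors := fun h => hpV (Nat.dvd_of_mem_primeFactors h)
    rw [h1, Finset.sum_insert h2]
    have h3 : Real.log p / ((p : ℝ) - 1) ≤ 1 := by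
      rw [div_le_one (by linarith)]
      have := tmb_log hp
      linarith
    have h4 := hT.pri
    linarith

end Pool.Agent.Lib.MP_9f2731_nt.CG.Ma
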