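import Pool.Agent.Lib.MP_9f2731_nt.CG.Ma.UbF
import Pool.Agent.Lib.MP_9f2731_nt.CG.Ma.ExF
import Pool.Agent.Lib.MP_9f2731_nt.CG.Ma.LoA
import Pool.Agent.Lib.MP_9f2731_nt.CG.Ma.LoB
import Pool.Agent.Lib.MP_9f2731_nt.CG.Ma.LoC
import Pool.Agent.Lib.MP_9f2731_nt.CG.Ma.InF
import Pool.Agent.Lib.MP_9f2731_nt.CG.Ma.MoF
import Pool.Agent.Lib.MP_9f2731_nt.CG.Ma.ThF
import Pool.Agent.Lib.MP_9f2731_nt.CG.Ma.TeF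
import Pool.Agent.Lib.MP_9f2731_nt.CG.Ma.SuF
import Pool.Agent.Lib.MP_9f2731_nt.CG.Ma.DnF
import Pool.Agent.Lib.MP_9f2731_nt.CG.Ma.PeF
import Pool.Agent.Lib.MP_9f2731_nt.CG.Ma.S1F
import Pool.Agent.Lib.MP_9f2731_nt.CG.Ma.RhF
import Pool.Agent.Lib.MP_9f2731_nt.CG.Ma.CoF
import Pool.Agent.Lib.MP_9f2731_nt.CG.Ma.SpF
import Pool.Agent.Lib.MP_9f2731_nt.CG.Ma.ErF
import Pool.Agent.Lib.MP_9f2731_nt.CG.Ma.ErB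
import Pool.Agent.Lib.MP_9f2731_nt.CG.Ma.S2F
import Pool.Agent.Lib.MP_9f2731_nt.CG.Ma.TmA
import Pool.Agent.Lib.MP_9f2731_nt.CG.Ma.TmB
import Pool.Agent.Lib.MP_9f2731_nt.CG.Ma.HwT
import Pool.Agent.Lib.MP_9f2731_nt.CG.Ma.SmT
import Pool.Agent.Lib.MP_9f2731_nt.CG.Ma.M2T
import Pool.Agent.Lib.MP_9f2731_nt.CG.Ma.MRF
import Pool.Agent.Lib.MP_9f2731_nt.CG.Ma.TTm
import Pool.Agent.Lib.MP_9f2731_nt.CG.Ma.TTu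
import Pool.Agent.Lib.MP_9f2731_nt.CG.Ma.TTr
import Pool.Agent.Lib.MP_9f2731_nt.CG.Ma.PfA
import Pool.Agent.Lib.MP_9f2731_nt.CG.Ma.PfB
import Pool.Agent.Lib.MP_9f2731_nt.CG.Ma.AfP
import Pool.Agent.Lib.MP_9f2731_nt.QL.Sw.All

/-!
MP_9f2731_nt, THEOREM CG (helper92), chapter Ma: composition of the modules.
-/

namespace Pool.Agent.Lib.MP_9f2731_nt.CG.Ma

open Pool.Agent.Lib.MP_9f2731_nt.GP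
open Pool.Agent.Lib.MP_9f2731_nt.QL

theorem aExF : ExFStmt := pExF pUbF GP.Sv.pCrt
theorem aLoC : LoCStmt := pLoC (GP.Sv.pLocD GP.Sv.pGg GP.Sv.pPex)
theorem aTeF : TeFStmt := pTeF (pThF pMoF)
theorem aSuF : SuFStmt := pSuF pInF aTeF aLoC GP.Sv.pMas
theorem aS1F : S1FStmt := pS1F aExF pLoA aSuF (pPeF pDnF)
theorem aSpF : SpFStmt := pSpF (pCoF (pRhF GP.Sv.pCrt)) aExF
theorem aS2F : S2FStmt := pS2F pLoB aSuF aSpF pErF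

theorem vM2 : GP.Sv.S_M2 := by
  have vHw0 := GP.Sv.pHw0 GP.Sv.pHwE GP.Sv.pDl GP.Sv.pH0
  have vHw1 := GP.Sv.pHw1 GP.Sv.pHwE GP.Sv.pDl (GP.Sv.pH1 GP.Sv.pH0 (GP.Sv.pL1 GP.Sv.pLim))
  have vM0 := GP.Sv.pM0 GP.Sv.pMob (GP.Sv.pCnt GP.Sv.pDl)
  have vM1 := GP.Sv.pM1 GP.Sv.pMob vHw0 vM0 GP.Sv.pSq
  exact GP.Sv.pM2 GP.Sv.pMob vHw1 vM0 vM1 GP.Sv.pSq

theorem aTmA : TmAStmt := pTmA QL.Sw.pDl
theorem aTmB : TmBStmt := pTmB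
theorem aHwT : HwTStmt :=
  pHwT QL.Sw.pHwE QL.Sw.pDl GP.Sv.pH0 (GP.Sv.pH1 GP.Sv.pH0 (GP.Sv.pL1 GP.Sv.pLim)) GP.Sv.pH2
theorem aM2T : M2TStmt := pM2T QL.Sw.pSmc pSmT vM2
theorem aPfA : PfAStmt := pPfA (pTTm pMRF aM2T aHwT) (pTTu pMRF aM2T aHwT) (pTTr pMRF aM2T aHwT)
theorem aPfB : PfBStmt := pPfB
theorem aAfP : AfPStmt := pAfP
theorem aErB : ErBStmt := pErB GP.Rom.pExp GP.Rom.pTot

end Pool.Agent.Lib.MP_9f2731_nt.CG.Ma
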