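import Pool.Agent.Lib.MP_9f2731_nt.CG.Defs
import Pool.Agent.Lib.MP_9f2731_nt.QL.Sw.Spec

/-!
MP_9f2731_nt, THEOREM CG (helper92), chapter Ma: sieve sums with general weights.

RULES. Module X: file Pool/Agent/Lib/MP_9f2731_nt/CG/Ma/X.lean, first line `import
Pool.Agent.Lib.MP_9f2731_nt.CG.Ma.Spec` (plus proved files named in the docstring), then `namespace
Pool.Agent.Lib.MP_9f2731_nt.CG.Ma`, `open Finset`, `open Pool.Agent.Lib.MP_9f2731_nt.GP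
Pool.Agent.Lib.MP_9f2731_nt.GP.Sv Pool.Agent.Lib.MP_9f2731_nt.QL Pool.Agent.Lib.MP_9f2731_nt.QL.Sw`, final theorem
`theorem pX : XStmt`; the statements listed under Uses are HYPOTHESES of pX, in this order: `theorem pX (h1 : AStmt)
(h2 : BStmt) : XStmt`. All modules are independent. Many modules are adaptations of the proved files of QL/Sw
(same directory level: QL/Sw/Ub.lean and so on); copy and adapt them: the cutoff chi R is replaced by a general function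
f with `Sup R f`, the forms nfV V m b by a * b + 1.
The ring Al ι, act, mon, e, ind, vv, zz, xx, gg, DD, FF, Nm, Loc, block are those of GP/Sv (Base, Base2), QsV, PqV, dlV,
hwV, mwV, sqxV those of QL/Sw/Base.
-/

namespace Pool.Agent.Lib.MP_9f2731_nt.CG.Ma

open Finset
open Pool.Agent.Lib.MP_9f2731_nt.GP
open Pool.Agent.Lib.MP_9f2731_nt.GP.Sv
open Pool.Agent.Lib.MP_9f2731_nt.QL
open Pool.Agent.Lib.MP_9f2731_nt.QL.Sw

/-- the sieve sum with the weight function f -/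
noncomputable def AF (V : ℕ) (R : ℝ) (f : ℕ → ℝ) (n : ℕ) : ℝ :=
  ∑ d ∈ (PqV V R).divisors, ((ArithmeticFunction.moebius d : ℤ) : ℝ) * ind d n * f d

/-- product of functions of one variable -/
noncomputable def PhF {ι : Type} [Fintype ι] (f : ι → ℕ → ℝ) : Fn ι := fun a => ∏ i, f i (a i)

/-- `∑ μ(u)/u f(u b)` over the u composed of sieving primes -/
noncomputable def MMF (V : ℕ) (R : ℝ) (f : ℕ → ℝ) (b : ℕ) : ℝ :=
  ∑ u ∈ (PqV V R).divisors, ((ArithmeticFunction.moebius u : ℤ) : ℝ) / u * f (u * b)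

/-- the correlation sum of one form -/
noncomputable def TTF (V : ℕ) (R : ℝ) (f h : ℕ → ℝ) (b c : ℕ) : ℝ :=
  ∑ g ∈ (Icc 1 ⌊R⌋₊).filter (fun n => n.Coprime V), 1 / (g : ℝ) * MMF V R f (g * b) * MMF V R h (g * c)

/-- the function lives on [1, R] -/
def Sup (R : ℝ) (f : ℕ → ℝ) : Prop := ∀ n : ℕ, (n = 0 ∨ R < (n : ℝ)) → f n = 0

/-- the cutoff `(log (y/n))_+ ^ 2` -/
noncomputable def cw (y : ℝ) (n : ℕ) : ℝ := if 1 ≤ n ∧ (n : ℝ) ≤ y then Real.log (y / n) ^ 2 else 0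

/-- the weight function of a profile -/
noncomputable def pfn (P : Pf) (R : ℝ) (n : ℕ) : ℝ := ∑ s, P.co s * cw (R ^ P.be s) n

/-! ### Operators -/

/-- Module UbF (50 lines; compare QL/Sw/Ub.lean). Uses: nothing. Proof. As pUb there: exchange the products, `block` with I i = {i}, φ i a = f i (a i); `sqxV` with F d = ind d (n i) • mon (e i d); act of it at 1 is ∑ d, μ(d) ind d (n i) f i d = AF V R (f i) (n i) by definition. -/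
def UbFStmt : Prop := ∀ (ι : Type) [Fintype ι] [DecidableEq ι] (V : ℕ) (R : ℝ) (f : ι → ℕ → ℝ) (n : ι → ℕ),
  act (∏ p ∈ QsV V R, ∏ i, (1 - ind p (n i) • mon (e i p))) (PhF f) 1 = ∏ i, AF V R (f i) (n i)

/-- Module ExF (70 lines; compare QL/Sw/Exp.lean). Uses: UbF, GP.Sv.S_Crt. Proof. F p b = u p b • ∏ i, (1 - ind p (a i b + 1) • mon (e i p)) is periodic in b modulo p. By UbF the left side is act (∑ b ∈ range (PqV V R), ∏ p ∈ QsV V R, F p b) (PhF f) 1 (∏ p of the u p b is a scalar: Finset.prod_smul, act_sum, act_smul),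
and S_Crt gives ∏ p ∈ QsV V R, ∑ b ∈ range p, F p b. -/
def ExFStmt : Prop := ∀ (ι : Type) [Fintype ι] [DecidableEq ι] (V : ℕ) (R : ℝ) (u : ℕ → ℕ → ℝ)
  (f : ι → ℕ → ℝ) (a : ι → ℕ), (∀ p ∈ QsV V R, ∀ b, u p (b + p) = u p b) →
  ∑ b ∈ range (PqV V R), (∏ p ∈ QsV V R, u p b) * ∏ i, AF V R (f i) (a i * b + 1)
    = act (∏ p ∈ QsV V R, ∑ b ∈ range p, u p b • ∏ i, (1 - ind p (a i * b + 1) • mon (e i p))) (PhF f) 1

/-- Module LoA (90 lines; compare QL/Sw/One.lean, LocA.lean). Uses: nothing. Proof. p does not divide a j, so there is exactly one b < p with p ∣ a j b + 1. Two different forms are not both divisible by p: p ∣ a j b + 1, a k b + 1 implies that p divides a k (a j b + 1) - a j (a k b + 1) = a k - a j. So the product over i is 1 + ∑ j, ind p (a j b + 1) • vv p j, and the sum over b < p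
of ind is 1 for every j. -/
def LoAStmt : Prop := ∀ (σ : Type) [Fintype σ] [DecidableEq σ] (p : ℕ) (a : σ → ℕ), p.Prime →
  (∀ j, ¬ p ∣ a j) → (∀ j k, j ≠ k → ¬ p ∣ Nat.dist (a j) (a k)) →
  ∑ b ∈ range p, (1 / (p : ℝ)) • ∏ i : σ × Bool, (1 - ind p (a i.1 * b + 1) • mon (e i p))
    = (1 : Al (σ × Bool)) + (1 / (p : ℝ)) • ∑ j, vv p j

/-- Module LoB (90 lines; compare QL/Sw/One.lean, LocA.lean). Uses: nothing. Proof. As LoA; the weights vanish at the unique b < p with p ∣ a0 b + 1 (there no other form is divisible by p: the product is 1) and are 1/(p-1) at the p - 1 other b, among them the b with p ∣ a j b + 1. -/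
def LoBStmt : Prop := ∀ (σ : Type) [Fintype σ] [DecidableEq σ] (p a0 : ℕ) (a : σ → ℕ), p.Prime →
  ¬ p ∣ a0 → (∀ j, ¬ p ∣ a j) → (∀ j, ¬ p ∣ Nat.dist a0 (a j)) →
  (∀ j k, j ≠ k → ¬ p ∣ Nat.dist (a j) (a k)) →
  ∑ b ∈ range p, (if p ∣ a0 * b + 1 then (0 : ℝ) else 1 / ((p : ℝ) - 1)) •
      ∏ i : σ × Bool, (1 - ind p (a i.1 * b + 1) • mon (e i p))
    = (1 : Al (σ × Bool)) + (1 / ((p : ℝ) - 1)) • ∑ j, vv p j

/-- Module LoC (70 lines; compare QL/Sw/LocC.lean). Uses: GP.Sv.S_LocD. Proof. s = (1/p) • ∑ j, vv p j with Nm s (3 n/p), τ = (t - 1/p) • ∑ j, vv p j with Nm τ (6 n/p^2), DD = 1 - s + ρ with Nm ρ (C0/p^2) (LocD). (1 + s + τ)(1 - s + ρ) - 1 = ρ - s^2 + s ρ + τ (1 - s + ρ). p ≥ 1. -/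
def LoCStmt : Prop := ∀ n : ℕ, ∃ C : ℝ, 0 < C ∧ ∀ (σ : Type) [Fintype σ] [DecidableEq σ] (K p : ℕ) (t : ℝ),
  Fintype.card σ ≤ n → 2 ≤ K → 2 ≤ p → |t - 1 / (p : ℝ)| ≤ 2 / (p : ℝ) ^ 2 →
  Nm ((1 + t • ∑ j : σ, vv p j) * DD K p - 1) (C / (p : ℝ) ^ 2)

/-- Module InF (110 lines; compare QL/Sw/Inv.lean). Uses: nothing. Proof. As pInv: PhF f vanishes if some coordinate is 0 or > R. -/
def InFStmt : Prop := ∀ (σ : Type) [Fintype σ] [DecidableEq σ] (V K : ℕ) (R : ℝ) (f : σ × Bool → ℕ → ℝ),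
  R < 2 ^ K → (∀ i, Sup R (f i)) →
  act (∏ p ∈ QsV V R, (DD (σ := σ) K p * FF K p)) (PhF f) = PhF f

/-- Module MoF (150 lines; compare QL/Sw/Moi.lean). Uses: nothing. Proof. As pMoi, with MMF V R f n = 0 for n = 0 or n > R. -/
def MoFStmt : Prop := ∀ (V : ℕ) (R : ℝ) (f h : ℕ → ℝ) (b c : ℕ), 1 < R → 1 ≤ V → Sup R f → Sup R h →
  ∑ k ∈ (PqV V R).divisors, ((ArithmeticFunction.moebius k : ℤ) : ℝ) / k * TTF V R f h (k * b) (k * c)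
    = MMF V R f b * MMF V R h c

/-- Module ThF (120 lines; compare QL/Sw/ThZ.lean). Uses: MoF. Proof. As pThZ. -/
def ThFStmt : Prop := ∀ (σ : Type) [Fintype σ] [DecidableEq σ] (V K : ℕ) (R : ℝ) (f h : ℕ → ℝ) (j : σ), 1 < R →
  1 ≤ V → R < 2 ^ K → Sup R f → Sup R h → ∀ a : σ × Bool → ℕ,
  act (∏ p ∈ QsV V R, gg K (zz p j))
    (fun b => MMF V R f (b (j, true)) * MMF V R h (b (j, false))) a = TTF V R f h (a (j, true)) (a (j, false))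

/-- Module TeF (130 lines; compare QL/Sw/The.lean). Uses: ThF. Proof. As pThe. -/
def TeFStmt : Prop := ∀ (σ : Type) [Fintype σ] [DecidableEq σ] (V K : ℕ) (R : ℝ) (f : σ × Bool → ℕ → ℝ), 1 < R →
  1 ≤ V → R < 2 ^ K → (∀ i, Sup R (f i)) → ∀ a : σ × Bool → ℕ,
  act (∏ p ∈ QsV V R, FF K p) (PhF f) a
    = ∏ j : σ, TTF V R (f (j, true)) (f (j, false)) (a (j, true)) (a (j, false))

/-- Module SuF (100 lines; compare QL/Sw/Sum.lean). Uses: InF, TeF, LoC, GP.Sv.S_Mas. Proof. K ≥ 2 with R < 2^K. Θ = act (∏ FF) (PhF f): by TeF Θ a is a product of TTF's, |Θ a| ≤ ∏ T j, Θ 1 = ∏ TTF 1 1. By InF PhF f = act (∏ DD) Θ. So act (∏ (1 + t p • ∑ vv)) (PhF f) 1 = Θ 1 + act (∏ ((1 + t p • ∑ vv) * DD) - 1) Θ 1,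
and by LoC, Mas the last term is ≤ (∏ (1 + C/p^2) - 1) ∏ T j in absolute value; ∏_{p ∈ QsV V R} (1 + C/p^2) ≤ exp (C ∑_{n > w} 1/n^2) ≤ exp (C/w) (sum_Ioc_inv_sq_le_sub; compare QL/Sw/Sng.lean). -/
def SuFStmt : Prop := ∀ n : ℕ, ∃ C : ℝ, 0 < C ∧ ∀ (σ : Type) [Fintype σ] [DecidableEq σ] (V w : ℕ) (R : ℝ)
  (t : ℕ → ℝ) (f : σ × Bool → ℕ → ℝ) (T : σ → ℝ), Fintype.card σ ≤ n → 1 ≤ w → 1 ≤ V → 1 < R →
  (∀ p ∈ QsV V R, w < p ∧ |t p - 1 / (p : ℝ)| ≤ 2 / (p : ℝ) ^ 2) → (∀ i, Sup R (f i)) →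
  (∀ j b c, |TTF V R (f (j, true)) (f (j, false)) b c| ≤ T j) →
  |act (∏ p ∈ QsV V R, (1 + t p • ∑ j : σ, vv p j)) (PhF f) 1
      - ∏ j : σ, TTF V R (f (j, true)) (f (j, false)) 1 1| ≤ (∏ j, T j) * (Real.exp (C / w) - 1)

/-! ### Mean values over intervals -/

/-- Module DnF (120 lines; compare QL/Sw/Dns.lean). Uses: nothing. Proof. D = lcm of the d i, D ∣ PqV V R. If there is no b with d i ∣ a i b + 1 for all i, both numbers are 0. Otherwise these b form a class b0 modulo D (d i is prime to a i). D and P0 are coprime (no prime factor of PqV V R divides P0), so with b ≡ c mod P0 it is one class modulo D P0 (Nat.chineseRemainder):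
the number of its elements in [1, X] is X/(D P0) up to 1; the number of the b < PqV V R in the class b0 mod D is exactly PqV V R/D. -/
def DnFStmt : Prop := ∀ (ι : Type) [Fintype ι] (V : ℕ) (R : ℝ) (X P0 c : ℕ) (a d : ι → ℕ), 1 ≤ P0 →
  (∀ p ∈ QsV V R, ¬ p ∣ P0) → (∀ i, ∀ p ∈ QsV V R, ¬ p ∣ a i) → (∀ i, d i ∣ PqV V R) →
  |(((Icc 1 X).filter (fun b => b ≡ c [MOD P0] ∧ ∀ i, d i ∣ a i * b + 1)).card : ℝ)
    - X / P0 * ((((range (PqV V R)).filter (fun b => ∀ i, d i ∣ a i * b + 1)).card : ℝ) / PqV V R)| ≤ 1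

/-- Module PeF (100 lines; compare QL/Sw/Per.lean). Uses: DnF. Proof. AF V R (f i) n = ∑ d ∈ D i, μ(d) f i d ind d n, D i = the divisors of PqV V R which are ≤ y i (the others have f i d = 0). Expand the product (Finset.prod_univ_sum), exchange the sums; DnF for each d ∈ piFinset D; |∏ μ f| ≤ B^(card ι), and D i has at most y i elements
(they are in Icc 1 ⌊y i⌋). ∏ (y i B). -/
def PeFStmt : Prop := ∀ (ι : Type) [Fintype ι] [DecidableEq ι] (V : ℕ) (R B : ℝ) (X P0 c : ℕ) (a : ι → ℕ)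
  (f : ι → ℕ → ℝ) (y : ι → ℝ), 1 ≤ P0 → (∀ p ∈ QsV V R, ¬ p ∣ P0) → (∀ i, ∀ p ∈ QsV V R, ¬ p ∣ a i) →
  (∀ i n, |f i n| ≤ B) → (∀ i, 0 ≤ y i ∧ Sup (y i) (f i)) →
  |∑ b ∈ (Icc 1 X).filter (fun b => b ≡ c [MOD P0]), ∏ i, AF V R (f i) (a i * b + 1)
    - X / P0 * ((∑ b ∈ range (PqV V R), ∏ i, AF V R (f i) (a i * b + 1)) / PqV V R)| ≤ ∏ i, (y i * B)

/-- Module S1F (120 lines). Uses: ExF, LoA, SuF, PeF. Proof. ι = σ × Bool, a i = a i.1: the product over i : σ × Bool is the product over j of the two factors (Fintype.prod_prod_type, Fintype.prod_bool). PeF reduces to the mean over a period. ExF with u p b = 1/p: ∏ p, 1/p = 1/PqV V R, so the mean over the period is act (∏ p, ∑ b < p, (1/p) • ∏ ..) (PhF f) 1,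
LoA: the local factor is 1 + (1/p) • ∑ vv, SuF with t p = 1/p. Multiply by X/P0 ≥ 0. (Sup (y i) implies Sup R.) -/
def S1FStmt : Prop := ∀ n : ℕ, ∃ C : ℝ, 0 < C ∧ ∀ (σ : Type) [Fintype σ] [DecidableEq σ] (V w X P0 c : ℕ)
  (R B : ℝ) (T : σ → ℝ) (a : σ → ℕ) (f : σ × Bool → ℕ → ℝ) (y : σ × Bool → ℝ), Fintype.card σ ≤ n → 1 ≤ w →
  1 ≤ V → 1 ≤ P0 → 1 < R → (∀ p ∈ QsV V R, w < p ∧ ¬ p ∣ P0) → (∀ j, ∀ p ∈ QsV V R, ¬ p ∣ a j) →
  (∀ j k, j ≠ k → ∀ p ∈ QsV V R, ¬ p ∣ Nat.dist (a j) (a k)) → (∀ i n, |f i n| ≤ B) →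
  (∀ i, 0 ≤ y i ∧ y i ≤ R ∧ Sup (y i) (f i)) →
  (∀ j b c, |TTF V R (f (j, true)) (f (j, false)) b c| ≤ T j) →
  |∑ b ∈ (Icc 1 X).filter (fun b => b ≡ c [MOD P0]),
      ∏ j, (AF V R (f (j, true)) (a j * b + 1) * AF V R (f (j, false)) (a j * b + 1))
    - X / P0 * ∏ j, TTF V R (f (j, true)) (f (j, false)) 1 1| ≤
    X / P0 * ((∏ j, T j) * (Real.exp (C / w) - 1)) + ∏ i, (y i * B)

/-! ### Mean values over primes -/

/-- the weights of the residue classes prime to the form a0 b + 1 -/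
noncomputable def u2 (a0 p b : ℕ) : ℝ := if p ∣ a0 * b + 1 then 0 else 1 / ((p : ℝ) - 1)

open Classical in
/-- Module RhF (120 lines). Uses: GP.Sv.S_Crt. Proof. If there is no solution b of the divisibilities both sides are 0. Let b0 be a solution; as in QL/Sw/Dns.lean (Dns_mod, Dns_lcm) the solutions are exactly the b ≡ b0 mod D, D = univ.lcm d, D ∣ PqV V R squarefree: so the condition is b ≡ b0 mod p for all p ∈ QsV V R with p ∣ D. Hence the left side is (S_Crt with A = ℝ)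
∏ p ∈ QsV V R, ∑ b < p, F p b, F p b = u2 a0 p b * (if p ∣ D then [b ≡ b0 mod p] else 1). p ∤ D: exactly one b < p has p ∣ a0 b + 1, the sum is (p-1)/(p-1) = 1. p ∣ D: p divides some d i, so p ∣ a i b0 + 1, and p does not divide a0 b0 + 1 (otherwise p ∣ dist a0 (a i)): the sum is 1/(p-1). The product of 1/(p-1)
over the prime factors of the squarefree number D is 1/φ(D). -/
def RhFStmt : Prop := ∀ (ι : Type) [Fintype ι] (V : ℕ) (R : ℝ) (a0 : ℕ) (a d : ι → ℕ),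
  (∀ p ∈ QsV V R, ¬ p ∣ a0) → (∀ i, ∀ p ∈ QsV V R, ¬ p ∣ a i) → (∀ i, ∀ p ∈ QsV V R, ¬ p ∣ Nat.dist a0 (a i)) →
  (∀ i, d i ∣ PqV V R) →
  ∑ b ∈ range (PqV V R), (∏ p ∈ QsV V R, u2 a0 p b) * (if ∀ i, d i ∣ a i * b + 1 then 1 else 0)
    = if ∃ b : ℕ, ∀ i, d i ∣ a i * b + 1 then 1 / ((univ.lcm d).totient : ℝ) else 0

open Classical in
/-- Module CoF (80 lines). Uses: RhF. Proof. If no b solves the divisibilities, the first number and the sum are 0 (RhF) and err ≥ 0. Otherwise let b0 be a solution, D = univ.lcm d: the b ∈ 𝒷 with d i ∣ a i b + 1 for all i are the b ∈ 𝒷 with b ≡ b0 mod D, a0 b0 + 1 is coprime to D (see RhF), the sum is 1/φ(D), so the claim is the hypothesis on err. -/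
def CoFStmt : Prop := ∀ (ι : Type) [Fintype ι] (V : ℕ) (R : ℝ) (a0 : ℕ) (a d : ι → ℕ) (𝒷 : Finset ℕ)
  (err : ℕ → ℝ), (∀ p ∈ QsV V R, ¬ p ∣ a0) → (∀ i, ∀ p ∈ QsV V R, ¬ p ∣ a i) →
  (∀ i, ∀ p ∈ QsV V R, ¬ p ∣ Nat.dist a0 (a i)) → (∀ i, d i ∣ PqV V R) → (∀ D, 0 ≤ err D) →
  (∀ D b0 : ℕ, D ∣ PqV V R → (a0 * b0 + 1).Coprime D →
    |((𝒷.filter (fun b => b ≡ b0 [MOD D])).card : ℝ) - (𝒷.card : ℝ) / (D.totient : ℝ)| ≤ err D) →
  |((𝒷.filter (fun b => ∀ i, d i ∣ a i * b + 1)).card : ℝ) - (𝒷.card : ℝ) *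
    ∑ b ∈ range (PqV V R), (∏ p ∈ QsV V R, u2 a0 p b) * (if ∀ i, d i ∣ a i * b + 1 then 1 else 0)| ≤
    err (univ.lcm d)

/-- Module SpF (100 lines; compare PeF and QL/Sw/Per.lean). Uses: CoF, ExF. Proof. Expand as in PeF: ∑_{b ∈ 𝒷} ∏ i, AF = ∑_{d ∈ piFinset D} (∏ i, μ(d i) f i (d i)) #{b ∈ 𝒷 : ∀ i, d i ∣ a i b + 1}, D i = the divisors of PqV V R which are ≤ y i, and the same expansion for ∑_{b < PqV V R} (∏ u2) ∏ AF, which is the act by ExF with u = u2 a0 (periodic).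
CoF for each d, |∏ μ f| ≤ B^(card ι). -/
def SpFStmt : Prop := ∀ (ι : Type) [Fintype ι] [DecidableEq ι] (V : ℕ) (R B : ℝ) (a0 : ℕ) (a : ι → ℕ)
  (𝒷 : Finset ℕ) (err : ℕ → ℝ) (f : ι → ℕ → ℝ) (y : ι → ℝ), (∀ p ∈ QsV V R, ¬ p ∣ a0) →
  (∀ i, ∀ p ∈ QsV V R, ¬ p ∣ a i) → (∀ i, ∀ p ∈ QsV V R, ¬ p ∣ Nat.dist a0 (a i)) → (∀ D, 0 ≤ err D) →
  (∀ D b0 : ℕ, D ∣ PqV V R → (a0 * b0 + 1).Coprime D →
    |((𝒷.filter (fun b => b ≡ b0 [MOD D])).card : ℝ) - (𝒷.card : ℝ) / (D.totient : ℝ)| ≤ err D) →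
  (∀ i n, |f i n| ≤ B) → (∀ i, 0 ≤ y i ∧ Sup (y i) (f i)) →
  |∑ b ∈ 𝒷, ∏ i, AF V R (f i) (a i * b + 1) - (𝒷.card : ℝ) *
      act (∏ p ∈ QsV V R, ∑ b ∈ range p, u2 a0 p b • ∏ i, (1 - ind p (a i * b + 1) • mon (e i p))) (PhF f) 1| ≤
    B ^ Fintype.card ι *
      ∑ d ∈ Fintype.piFinset (fun i => (PqV V R).divisors.filter (fun d : ℕ => (d : ℝ) ≤ y i)), err (univ.lcm d)

/-- Module ErF (70 lines). Uses: nothing. Proof. For d in the index set D = univ.lcm d divides PqV V R, D ≤ ∏ d i ≤ ∏ y i, and every d i divides D: for a given D there are at most (number of divisors of D)^(card ι) tuples d (group by D: Finset.sum_fiberwise_of_maps_to; the fiber is contained in piFinset (fun _ => D.divisors)). err ≥ 0. -/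
def ErFStmt : Prop := ∀ (ι : Type) [Fintype ι] [DecidableEq ι] (V : ℕ) (R : ℝ) (err : ℕ → ℝ) (y : ι → ℝ),
  (∀ D, 0 ≤ err D) →
  ∑ d ∈ Fintype.piFinset (fun i => (PqV V R).divisors.filter (fun d : ℕ => (d : ℝ) ≤ y i)), err (univ.lcm d) ≤
    ∑ D ∈ (PqV V R).divisors.filter (fun D : ℕ => (D : ℝ) ≤ ∏ i, y i), (D.divisors.card : ℝ) ^ Fintype.card ι * err D

/-- Module S2F (100 lines). Uses: LoB, SuF, SpF, ErF. Proof. ι = σ × Bool. SpF and ErF; the local factor is 1 + (1/(p-1)) • ∑ vv by LoB (u2 a0 p b is the weight there), SuF with t p = 1/(p-1): |1/(p-1) - 1/p| = 1/(p(p-1)) ≤ 2/p^2. Multiply by card 𝒷. -/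
def S2FStmt : Prop := ∀ n : ℕ, ∃ C : ℝ, 0 < C ∧ ∀ (σ : Type) [Fintype σ] [DecidableEq σ] (V w a0 : ℕ)
  (R B : ℝ) (T : σ → ℝ) (a : σ → ℕ) (𝒷 : Finset ℕ) (err : ℕ → ℝ) (f : σ × Bool → ℕ → ℝ) (y : σ × Bool → ℝ),
  Fintype.card σ ≤ n → 1 ≤ w → 1 ≤ V → 1 < R → (∀ p ∈ QsV V R, w < p ∧ ¬ p ∣ a0) →
  (∀ j, ∀ p ∈ QsV V R, ¬ p ∣ a j ∧ ¬ p ∣ Nat.dist a0 (a j)) →
  (∀ j k, j ≠ k → ∀ p ∈ QsV V R, ¬ p ∣ Nat.dist (a j) (a k)) → (∀ D, 0 ≤ err D) →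
  (∀ D b0 : ℕ, D ∣ PqV V R → (a0 * b0 + 1).Coprime D →
    |((𝒷.filter (fun b => b ≡ b0 [MOD D])).card : ℝ) - (𝒷.card : ℝ) / (D.totient : ℝ)| ≤ err D) →
  (∀ i n, |f i n| ≤ B) → (∀ i, 0 ≤ y i ∧ y i ≤ R ∧ Sup (y i) (f i)) →
  (∀ j b c, |TTF V R (f (j, true)) (f (j, false)) b c| ≤ T j) →
  |∑ b ∈ 𝒷, ∏ j, (AF V R (f (j, true)) (a j * b + 1) * AF V R (f (j, false)) (a j * b + 1))
    - (𝒷.card : ℝ) * ∏ j, TTF V R (f (j, true)) (f (j, false)) 1 1| ≤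
    (𝒷.card : ℝ) * ((∏ j, T j) * (Real.exp (C / w) - 1)) + B ^ (2 * Fintype.card σ) *
      ∑ D ∈ (PqV V R).divisors.filter (fun D : ℕ => (D : ℝ) ≤ ∏ i, y i),
        (D.divisors.card : ℝ) ^ (2 * Fintype.card σ) * err D

/-- Module ErB (200 lines). Uses: GP.Rom.ExpStmt, GP.Rom.TotStmt (import also Pool.Agent.Lib.MP_9f2731_nt.GP.Rom.Spec). Proof. L = log X. For D ≥ 1 let a(D) be a residue prime to D for which |npa X a0 D a - npq X a0/φ(D)| is maximal (finitely many classes; a(0) = 1) and δ(D) = this maximum; err D = δ(D) + 2 X^(1/5) + 2. (1) 𝒷 = the b with X^(1/5) < b ≤ X, a0 b + 1 prime: for (a0 b0 + 1, D) = 1, D ∣ PqV,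
D is prime to a0, so b ≡ b0 mod D iff a0 b + 1 ≡ a0 b0 + 1 mod D: #{b ∈ 𝒷, b ≡ b0} = npa X a0 D (a0 b0 + 1) up to X^(1/5) (the number of the b ≤ X^(1/5)), #𝒷 = npq X a0 up to X^(1/5), so the difference is ≤ δ(D) + 2 X^(1/5). (2) The D ∣ PqV V' R with D ≤ X^(2/5) are prime to a0 p0 (p0 ∣ V'), squarefree, and ≤ X^(9/20):
∑ δ(D) ≤ X exp(-L^(1/200)) by BvOK. Trivially δ(D) ≤ X/D + 1 + X/φ(D) ≤ 3 X/φ(D) (D ≤ X; npa ≤ the number of b ≤ X in one class mod D ≤ X/D + 1). τ = D.divisors.card = 2^(om D). Cauchy-Schwarz: ∑ τ^n δ ≤ (∑ τ^(2n) δ)^(1/2) (∑ δ)^(1/2), and ∑_D τ(D)^(2n)/φ(D) ≤ ∏_{p ≤ R} (1 + 4^n/(p-1)) ≤ ∏ (1 + 2 4^n/p) ≤ B (1 + L)^(2 4^n)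
(1/φ(D) = ∏ 1/(p-1) ≤ 2^(om D)/D, Rom.Exp second part with C = 2 4^n, w = 0, Z = ⌊R⌋, and Rom.Tot). So ∑ τ^n δ ≤ X (3 B (1 + L)^(2 4^n))^(1/2) exp(-L^(1/200)/2) ≤ X exp(-L^(1/300))/2 for X large. (3) ∑_{D ≤ X^(2/5)} τ(D)^n (2 X^(1/5) + 2) ≤ X^(9/10): τ(D)^n ≤ D^(1/20)·C: or simply
∑_{D ≤ Y} τ(D)^n ≤ Y ∑ τ(D)^n/D ≤ Y B (1 + L)^(2^n) (Rom.Exp, Rom.Tot), Y = X^(2/5). Total ≤ X exp(-L^(1/300)). -/
def ErBStmt : Prop := ∀ n : ℕ, ∃ X0 : ℝ, ∀ (X p0 a0 V : ℕ), X0 ≤ X → BvOK X p0 a0 → 1 ≤ a0 → p0 ∣ V →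
  (∀ p : ℕ, p.Prime → ¬ p ∣ V → ¬ p ∣ a0) →
  ∃ err : ℕ → ℝ, (∀ D, 0 ≤ err D) ∧
    (∀ D b0 : ℕ, D ∣ PqV V ((X : ℝ) ^ ((1 : ℝ) / 5)) → (a0 * b0 + 1).Coprime D →
      |((((Icc 1 X).filter (fun b : ℕ => (X : ℝ) ^ ((1 : ℝ) / 5) < b ∧ (a0 * b + 1).Prime)).filter
          (fun b => b ≡ b0 [MOD D])).card : ℝ) -
        (((Icc 1 X).filter (fun b : ℕ => (X : ℝ) ^ ((1 : ℝ) / 5) < b ∧ (a0 * b + 1).Prime)).card : ℝ) /
          (D.totient : ℝ)| ≤ err D) ∧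
    ∑ D ∈ (PqV V ((X : ℝ) ^ ((1 : ℝ) / 5))).divisors.filter (fun D : ℕ => (D : ℝ) ≤ (X : ℝ) ^ ((2 : ℝ) / 5)),
        (D.divisors.card : ℝ) ^ n * err D ≤ X * Real.exp (-(Real.log X) ^ ((1 : ℝ) / 300))

end Pool.Agent.Lib.MP_9f2731_nt.CG.Ma
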