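import Pool.Agent.Lib.MP_9f2731_nt.CG.Ma.Spec

/-!
MP_9f2731_nt, THEOREM CG (helper92), chapter Ma, part 2: elementary sums. Rules: see CG/Ma/Spec.lean; first line of the
modules of this part: `import Pool.Agent.Lib.MP_9f2731_nt.CG.Ma.SpecE`.
-/

namespace Pool.Agent.Lib.MP_9f2731_nt.CG.Ma

open Finset
open Pool.Agent.Lib.MP_9f2731_nt.GP
open Pool.Agent.Lib.MP_9f2731_nt.GP.Sv
open Pool.Agent.Lib.MP_9f2731_nt.QL
open Pool.Agent.Lib.MP_9f2731_nt.QL.Sw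

/-- all quantities of V which occur in error terms are bounded by lam -/
structure Tame (V : ℕ) (lam : ℝ) : Prop where
  pos : 1 ≤ V
  one : 1 ≤ lam
  inv : 1 / dlV V ≤ lam
  sum : ∑ d ∈ V.divisors, |((ArithmeticFunction.moebius d : ℤ) : ℝ)| / d * (1 + Real.log d) ≤ lam
  pri : ∑ p ∈ V.primeFactors, Real.log p / ((p : ℝ) - 1) ≤ lam

/-- Module TmA (50 lines). Uses: QL.Sw.S_Dl. Proof. v = log V ≥ 0. 1/dlV V ≤ 1 + 2 v; the sum is ≤ (1 + v) ∑ |μ(d)|/d ≤ (1 + v)(1 + 2 v); log p/(p-1) ≤ log p and ∑_{p ∣ V} log p ≤ v (∏_{p ∣ V} p divides V: Nat.prod_primeFactors_dvd). All are ≤ 2 (1 + v)^2. -/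
def TmAStmt : Prop := ∀ V : ℕ, 1 ≤ V → Tame V (2 * (1 + Real.log V) ^ 2)

/-- Module TmB (90 lines). Uses: nothing. Proof. dlV (V p) = dlV V (p-1)/p, so 1/dlV (V p) ≤ 2/dlV V. The divisors of V p are the d and the p d, d ∣ V (disjoint), |μ(p d)| = |μ(d)|, 1 + log (p d) ≤ (1 + log p)(1 + log d), 1 + log p ≤ p: the sum is ≤ 2 lam. The prime factors of V p are those of V and p, log p/(p-1) ≤ 1 ≤ lam. -/
def TmBStmt : Prop := ∀ (V p : ℕ) (lam : ℝ), Tame V lam → p.Prime → ¬ p ∣ V → Tame (V * p) (2 * lam)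

/-- Module HwT (150 lines; compare QL/Sw/Hw2.lean). Uses: QL.Sw.S_HwE, QL.Sw.S_Dl, GP.Sv.S_H0, GP.Sv.S_H1, GP.Sv.S_H2. Proof. l = log y ≥ 0. For t ≥ 1: |hs k t - (log t)^(k+1)/(k+1)| ≤ C (1 + log t)^k, k = 0, 1, 2 (H0 with γ ≤ 1; H1: γ log t + c + C/√t; H2). By HwE and Dl (1): hwV V k y - dlV V l^(k+1)/(k+1) = ∑_{d ∣ V} (μ(d)/d) (hs k (y/d) - l^(k+1)/(k+1)).
For d ≤ y the bracket is ≤ C (1 + l)^k + log d l^k in absolute value (0 ≤ l - log d ≤ l: l^(k+1) - (l - log d)^(k+1) ≤ (k+1) log d l^k); for d > y hs k (y/d) = 0 (empty sum) and l^(k+1)/(k+1) ≤ log d l^k. So it is ≤ (C + 1)(1 + log d)(1 + l)^k in all cases; use Tame.sum. -/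
def HwTStmt : Prop := ∃ C : ℝ, 0 < C ∧ ∀ (V : ℕ) (lam y : ℝ), Tame V lam → 1 ≤ y →
  |hwV V 0 y - dlV V * Real.log y| ≤ C * lam ∧
  |hwV V 1 y - dlV V / 2 * Real.log y ^ 2| ≤ C * lam * (1 + Real.log y) ∧
  |hwV V 2 y - dlV V / 3 * Real.log y ^ 3| ≤ C * lam * (1 + Real.log y) ^ 2

open Classical in
/-- Module SmT (adaptation of QL/Sw/SmB.lean: in the last step the sum of log p/(p-1) over the p ∣ V is kept instead of being estimated by log V). Uses: nothing. -/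
def SmTStmt : Prop := ∀ (V : ℕ) (y : ℝ), 1 ≤ V → 1 ≤ y →
  ∑ v ∈ (Icc 1 ⌊y⌋₊).filter (fun v => SmV V v), 1 / (v : ℝ) ≤ 1 / dlV V ∧
  |∑ v ∈ (Icc 1 ⌊y⌋₊).filter (fun v => SmV V v), 1 / (v : ℝ) * Real.log (y / v) - Real.log y / dlV V| ≤
    (∑ p ∈ V.primeFactors, Real.log p / ((p : ℝ) - 1)) / dlV V

/-- Module M2T (60 lines; compare QL/Sw/M2.lean). Uses: QL.Sw.S_Smc, SmT, GP.Sv.S_M2. Proof. |mwV 1 2 t - 2 log t| ≤ C0 for t ≥ 1. Smc: |mwV V 2 y - 2 ∑_v (1/v) log (y/v)| ≤ C0/dlV V ≤ C0 lam, and SmT: the sum differs from (log y)/dlV V by at most lam/dlV V ≤ lam^2. -/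
def M2TStmt : Prop := ∃ C : ℝ, 0 < C ∧ ∀ (V : ℕ) (lam y : ℝ), Tame V lam → 1 ≤ y →
  |mwV V 2 y - 2 / dlV V * Real.log y| ≤ C * lam ^ 2

/-- Module MRF (80 lines; compare QL/Sw/MR.lean). Uses: nothing. Proof. As pMR: for b = 0 or b > y all cw y (u b) vanish; for 1 ≤ b ≤ y the terms with u b > y vanish and cw y (u b) = log ((y/b)/u)^2; the squarefree u ≤ y/b prime to V are exactly the divisors of PqV V R which are ≤ y/b (their prime factors are ≤ y ≤ R). -/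
def MRFStmt : Prop := ∀ (V : ℕ) (R y : ℝ) (b : ℕ), 1 < R → 1 ≤ V → y ≤ R →
  MMF V R (cw y) b = if 1 ≤ b ∧ (b : ℝ) ≤ y then mwV V 2 (y / b) else 0

/-- Module TTm (150 lines). Uses: MRF, M2T, HwT. Proof. TTF and Ee are symmetric: let y ≤ z, δ = dlV V, 1/δ ≤ lam. The terms with g > y vanish. For g ≤ y: MMF (cw y) g = (2/δ) log (y/g) + e, MMF (cw z) g = (2/δ) log (z/g) + e', |e|, |e'| ≤ C1 lam^2; the product differs from (4/δ^2) log (y/g) log (z/g) by at most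
C1 lam^2 (4/δ) log R + C1^2 lam^4 ≤ C lam^4 (1 + log R), and ∑_{g ≤ R} 1/g ≤ 1 + log R. log (z/g) = log (y/g) + log (z/y), so the sum of (1/g) log (y/g) log (z/g) over the g ≤ y prime to V is hwV V 2 y + log (z/y) hwV V 1 y, by HwT equal to δ (l^3/3 + (l' - l) l^2/2) = δ Ee l l' (l = log y ≤ l' = log z) up to
C lam (1 + log R)^2; multiply by 4/δ^2 ≤ 4 lam^2. -/
def TTmStmt : Prop := ∃ C : ℝ, 0 < C ∧ ∀ (V : ℕ) (lam R y z : ℝ), Tame V lam → 2 ≤ R → 1 ≤ y → y ≤ R →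
  1 ≤ z → z ≤ R →
  |TTF V R (cw y) (cw z) 1 1 - 4 / dlV V * Ee (Real.log y) (Real.log z)| ≤
    C * (lam ^ 6 * (1 + Real.log R) ^ 2)

/-- Module TTu (100 lines; compare QL/Sw/TTb.lean). Uses: MRF, M2T, HwT. Proof. For g ≤ R: |MMF (cw y) (g b)| ≤ (2/δ) log (R/g) + C1 lam^2 (it is 0 unless 1 ≤ g b ≤ y; then b ≥ 1 and log (y/(g b)) ≤ log (R/g)). So |TTF| ≤ ∑_g (1/g) ((2/δ) log (R/g) + C1 lam^2)^2 ≤ (8/δ^2) hwV V 2 R + 2 C1^2 lam^4 hwV V 0 R,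
hwV V 2 R ≤ (δ/3)(log R)^3 + C2 lam (1 + log R)^2, hwV V 0 R ≤ 1 + log R (harmonic sum). -/
def TTuStmt : Prop := ∃ C : ℝ, 0 < C ∧ ∀ (V : ℕ) (lam R y z : ℝ) (b c : ℕ), Tame V lam → 2 ≤ R → y ≤ R → z ≤ R →
  |TTF V R (cw y) (cw z) b c| ≤ C * ((Real.log R) ^ 3 / dlV V + lam ^ 6 * (1 + Real.log R) ^ 2)

/-- Module TTr (130 lines). Uses: MRF, M2T, HwT. Proof. cw y (p n) = cw (y/p) n, so MMF of the difference f at b is MMF (cw y) b - MMF (cw (y/p)) b (linear in the weight). By MRF and M2T it is ≤ (2/δ) log p + 2 C1 lam^2 in absolute value for all b: both terms nonzero: log (y/b) - log (y/(p b)) = log p; y/p < b ≤ y: log (y/b) ≤ log p.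
So |TTF| ≤ hwV V 0 R ((2/δ) log p + 2 C1 lam^2)^2 ≤ (δ log R + C2 lam)(8 (log p)^2/δ^2 + 8 C1^2 lam^4), and δ ≤ 1, 1/δ ≤ lam, log p ≤ log R: ≤ 8 log R (log p)^2/δ + 8 C2 lam^3 (log R)^2 + 8 C1^2 lam^4 log R + 8 C1^2 C2 lam^5. -/
def TTrStmt : Prop := ∃ C : ℝ, 0 < C ∧ ∀ (V : ℕ) (lam R y z : ℝ) (p b c : ℕ), Tame V lam → 2 ≤ R → y ≤ R → z ≤ R →
  1 ≤ p → (p : ℝ) ≤ R →
  |TTF V R (fun n => cw y n - cw y (p * n)) (fun n => cw z n - cw z (p * n)) b c| ≤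
    C * (Real.log R * (Real.log p) ^ 2 / dlV V + lam ^ 6 * (1 + Real.log R) ^ 2)

/-- all exponents of the profile are in [0, 1] -/
def Pok (P : Pf) : Prop := ∀ s, 0 ≤ P.be s ∧ P.be s ≤ 1

/-- Module PfA (120 lines). Uses: TTm, TTu, TTr. Proof. MMF and TTF are (bi)linear in the weights (finite sums): TTF V R (pfn P R) (pfn Q R) b c = ∑ s, ∑ t, P.co s Q.co t TTF V R (cw (R^(P.be s))) (cw (R^(Q.be t))) b c, and the same for the differences. 1 ≤ R^be ≤ R, log (R^be) = be log R, Ee (β L) (β' L) = L^3 Ee β β' for L ≥ 0.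
∑ |P.co s| |Q.co t| = P.M Q.M. -/
def PfAStmt : Prop := ∃ C : ℝ, 0 < C ∧ ∀ (V : ℕ) (lam R : ℝ) (P Q : Pf), Tame V lam → 2 ≤ R → Pok P → Pok Q →
  |TTF V R (pfn P R) (pfn Q R) 1 1 - (Real.log R) ^ 3 / dlV V * ip P Q| ≤
    C * (P.M * Q.M) * (lam ^ 6 * (1 + Real.log R) ^ 2) ∧
  (∀ b c : ℕ, |TTF V R (pfn P R) (pfn Q R) b c| ≤
    C * (P.M * Q.M) * ((Real.log R) ^ 3 / dlV V + lam ^ 6 * (1 + Real.log R) ^ 2)) ∧
  ∀ p b c : ℕ, 1 ≤ p → (p : ℝ) ≤ R →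
    |TTF V R (fun n => pfn P R n - pfn P R (p * n)) (fun n => pfn Q R n - pfn Q R (p * n)) b c| ≤
    C * (P.M * Q.M) * (Real.log R * (Real.log p) ^ 2 / dlV V + lam ^ 6 * (1 + Real.log R) ^ 2)

/-- Module PfB (70 lines). Uses: nothing. Proof. 0 ≤ cw (R^β) n ≤ (log R)^2 for 0 ≤ β ≤ 1, R ≥ 1 (n ≥ 1, log (R^β/n) ≤ β log R). cw (R^β) n = 0 for n = 0 or n > R^β. cw (R^β) 1 = (β log R)^2. -/
def PfBStmt : Prop := ∀ (P : Pf) (R : ℝ), 1 ≤ R → Pok P →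
  (∀ n, |pfn P R n| ≤ P.M * (Real.log R) ^ 2) ∧
  (∀ β : ℝ, (∀ s, P.be s ≤ β) → Sup (R ^ β) (pfn P R)) ∧ pfn P R 1 = (Real.log R) ^ 2 * im P

/-- Module AfP (110 lines). Uses: nothing. Proof. p ∈ QsV V R: QsV V R is the disjoint union of {p} and QsV (V p) R, PqV V R = p PqV (V p) R, its divisors are the d and the p d, d ∣ PqV (V p) R, p ∤ d. μ(p d) = -μ(d). (1) p ∤ n: ind (p d) n = 0. (2) p ∣ n: ind (p d) n = ind d n (coprime). (3) q prime > R: d ∣ q, d ∣ PqV V R: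
d = q is impossible because all prime factors of PqV V R are ≤ R; only d = 1. -/
def AfPStmt : Prop := ∀ (V : ℕ) (R : ℝ) (f : ℕ → ℝ),
  (∀ p n : ℕ, p ∈ QsV V R → ¬ p ∣ n → AF V R f n = AF (V * p) R f n) ∧
  (∀ p n : ℕ, p ∈ QsV V R → p ∣ n → AF V R f n = AF (V * p) R (fun d => f d - f (p * d)) n) ∧
  ∀ q : ℕ, q.Prime → R < (q : ℝ) → 0 ≤ R → AF V R f q = f 1

end Pool.Agent.Lib.MP_9f2731_nt.CG.Ma
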