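import Pool.Agent.Lib.MP_9f2731_nt.CG.Ma.SpecE

/-!
MP_9f2731_nt, CG/Ma, module TTu: upper bound of the correlation sums (helper26).
-/

namespace Pool.Agent.Lib.MP_9f2731_nt.CG.Ma

open Finset
open Pool.Agent.Lib.MP_9f2731_nt.GP
open Pool.Agent.Lib.MP_9f2731_nt.GP.Sv
open Pool.Agent.Lib.MP_9f2731_nt.QL
open Pool.Agent.Lib.MP_9f2731_nt.QL.Sw

private theorem TTu_one (h1 : MRFStmt) {C1 : ℝ} {V : ℕ} {lam : ℝ} (hC1 : 0 < C1) (hT : Tame V lam)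
    (h2 : ∀ y : ℝ, 1 ≤ y → |mwV V 2 y - 2 / dlV V * Real.log y| ≤ C1 * lam ^ 2) {R y : ℝ} (hR : 2 ≤ R)
    (hy : y ≤ R) {g : ℕ} (hg : 1 ≤ g) (hgR : (g : ℝ) ≤ R) (b : ℕ) :
    |MMF V R (cw y) (g * b)| ≤ 2 / dlV V * Real.log (R / g) + C1 * lam ^ 2 := by
  have hg0 : (0 : ℝ) < g := by exact_mod_cast hg
  have hδ := dlV_pos hT.pos
  have hlg : 0 ≤ Real.log (R / g) := Real.log_nonneg ((one_le_div hg0).2 hgR)
  have hA : 0 ≤ 2 / dlV V * Real.log (R / g) := by positivity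
  have hB : 0 ≤ C1 * lam ^ 2 := by positivity
  rw [h1 V R y (g * b) (by linarith) hT.pos hy]
  split_ifs with hb
  · have hb1 : 1 ≤ b := by
      by_contra hno
      have : b = 0 := by omega
      subst this
      simp at hb
    have hb1' : (1 : ℝ) ≤ b := by exact_mod_cast hb1
    have hgb0 : (0 : ℝ) < ((g * b : ℕ) : ℝ) := by exact_mod_cast hb.1
    have hy0 : 0 < y := by linarith [hb.2]
    have h3 := h2 (y / (g * b : ℕ)) ((one_le_div hgb0).2 hb.2)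
    have h4 : Real.log (y / (g * b : ℕ)) ≤ Real.log (R / g) := by
      refine Real.log_le_log (div_pos hy0 hgb0) ?_
      rw [div_le_div_iff₀ hgb0 hg0]
      push_cast
      have h5 : y * g ≤ R * g := mul_le_mul_of_nonneg_right hy hg0.le
      have h6 : R * g ≤ R * (g * b) := by
        refine mul_le_mul_of_nonneg_left ?_ (by linarith)
        nlinarith
      linarith
    have h5 : 0 ≤ Real.log (y / (g * b : ℕ)) := Real.log_nonneg ((one_le_div hgb0).2 hb.2)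
    have h6 : 2 / dlV V * Real.log (y / (g * b : ℕ)) ≤ 2 / dlV V * Real.log (R / g) :=
      mul_le_mul_of_nonneg_left h4 (by positivity)
    have h7 : 0 ≤ 2 / dlV V * Real.log (y / (g * b : ℕ)) := by positivity
    rw [abs_le] at h3 ⊢
    constructor <;> linarith [h3.1, h3.2]
  · rw [abs_zero]
    linarith

theorem pTTu (h1 : MRFStmt) (h2 : M2TStmt) (h3 : HwTStmt) : TTuStmt := by
  obtain ⟨C1, hC1, h2⟩ := h2
  obtain ⟨C2, hC2, h3⟩ := h3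
  refine ⟨8 + 8 * C2 + 2 * C1 ^ 2 + 2 * C1 ^ 2 * C2, by positivity, ?_⟩
  intro V lam R y z b c hT hR hy hz
  have hδ := dlV_pos hT.pos
  have hδ1 := dlV_le_one V
  have hlam := hT.one
  have hinv := hT.inv
  have hlR : 0 ≤ Real.log R := Real.log_nonneg (by linarith)
  obtain ⟨hh0, -, hh2⟩ := h3 V lam R hT (by linarith)
  have hhw0 : hwV V 0 R ≤ dlV V * Real.log R + C2 * lam := by
    have := (abs_le.1 hh0).2
    linarith
  have hhw2 : hwV V 2 R ≤ dlV V / 3 * Real.log R ^ 3 + C2 * lam * (1 + Real.log R) ^ 2 := by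
    have := (abs_le.1 hh2).2
    linarith
  obtain ⟨i, hi⟩ : ∃ i, i = 1 / dlV V := ⟨_, rfl⟩
  have hi0 : 0 < i := by rw [hi]; positivity
  have hil : i ≤ lam := by rw [hi]; exact hinv
  have hδi : dlV V * i = 1 := by rw [hi]; field_simp
  have e0 : 2 / dlV V = 2 * i := by rw [hi]; ring
  have h4 : |TTF V R (cw y) (cw z) b c| ≤
      8 * i ^ 2 * hwV V 2 R + 2 * C1 ^ 2 * lam ^ 4 * hwV V 0 R := by
    unfold TTF hwV
    rw [mul_sum, mul_sum, ← sum_add_distrib]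
    refine (abs_sum_le_sum_abs _ _).trans (sum_le_sum fun g hg => ?_)
    obtain ⟨hg1, hg2⟩ := mem_Icc.1 (mem_filter.1 hg).1
    have hgR : (g : ℝ) ≤ R := (Nat.le_floor_iff (by linarith)).1 hg2
    have hg0 : (0 : ℝ) < g := by exact_mod_cast hg1
    have hf := TTu_one h1 hC1 hT (fun t ht => h2 V lam t hT ht) hR hy hg1 hgR b
    have hk := TTu_one h1 hC1 hT (fun t ht => h2 V lam t hT ht) hR hz hg1 hgR c
    rw [e0] at hf hk
    obtain ⟨D, hD⟩ : ∃ D, D = 2 * i * Real.log (R / g) + C1 * lam ^ 2 := ⟨_, rfl⟩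
    rw [← hD] at hf hk
    have hlg : 0 ≤ Real.log (R / g) := Real.log_nonneg ((one_le_div hg0).2 hgR)
    have hD0 : 0 ≤ D := by rw [hD]; positivity
    rw [abs_mul, abs_mul, abs_of_nonneg (show (0 : ℝ) ≤ 1 / (g : ℝ) by positivity), pow_zero, mul_one,
      mul_assoc]
    have h5 : |MMF V R (cw y) (g * b)| * |MMF V R (cw z) (g * c)| ≤ D * D :=
      mul_le_mul hf hk (abs_nonneg _) hD0
    have h6 : D * D ≤ 8 * i ^ 2 * Real.log (R / g) ^ 2 + 2 * C1 ^ 2 * lam ^ 4 := by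
      rw [hD]
      nlinarith [sq_nonneg (2 * i * Real.log (R / g) - C1 * lam ^ 2)]
    calc 1 / (g : ℝ) * (|MMF V R (cw y) (g * b)| * |MMF V R (cw z) (g * c)|)
        ≤ 1 / (g : ℝ) * (8 * i ^ 2 * Real.log (R / g) ^ 2 + 2 * C1 ^ 2 * lam ^ 4) :=
          mul_le_mul_of_nonneg_left (h5.trans h6) (by positivity)
      _ = 8 * i ^ 2 * (1 / (g : ℝ) * Real.log (R / g) ^ 2) + 2 * C1 ^ 2 * lam ^ 4 * (1 / (g : ℝ)) := by
          ring
  have hlam0 : 0 < lam := by linarith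
  obtain ⟨Q, hQ⟩ : ∃ Q, Q = lam ^ 6 * (1 + Real.log R) ^ 2 := ⟨_, rfl⟩
  have hQ0 : 0 ≤ Q := by rw [hQ]; positivity
  have hLL : Real.log R ≤ (1 + Real.log R) ^ 2 := by nlinarith
  have hL1 : (1 : ℝ) ≤ (1 + Real.log R) ^ 2 := by nlinarith
  have hl3 : lam ^ 3 ≤ lam ^ 6 := pow_le_pow_right₀ hlam (by norm_num)
  have hl4 : lam ^ 4 ≤ lam ^ 6 := pow_le_pow_right₀ hlam (by norm_num)
  have hl5 : lam ^ 5 ≤ lam ^ 6 := pow_le_pow_right₀ hlam (by norm_num)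
  have h5 : 8 * i ^ 2 * hwV V 2 R ≤
      8 * i ^ 2 * (dlV V / 3 * Real.log R ^ 3 + C2 * lam * (1 + Real.log R) ^ 2) :=
    mul_le_mul_of_nonneg_left hhw2 (by positivity)
  have h6 : 2 * C1 ^ 2 * lam ^ 4 * hwV V 0 R ≤ 2 * C1 ^ 2 * lam ^ 4 * (dlV V * Real.log R + C2 * lam) :=
    mul_le_mul_of_nonneg_left hhw0 (by positivity)
  have e1 : 8 * i ^ 2 * (dlV V / 3 * Real.log R ^ 3 + C2 * lam * (1 + Real.log R) ^ 2) =
      8 / 3 * (Real.log R ^ 3 * i) + 8 * C2 * (i ^ 2 * lam * (1 + Real.log R) ^ 2) := by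
    have h7 : dlV V * i ^ 2 = i := by
      rw [sq, ← mul_assoc, hδi, one_mul]
    calc 8 * i ^ 2 * (dlV V / 3 * Real.log R ^ 3 + C2 * lam * (1 + Real.log R) ^ 2)
        = 8 / 3 * (Real.log R ^ 3 * (dlV V * i ^ 2)) + 8 * C2 * (i ^ 2 * lam * (1 + Real.log R) ^ 2) := by
          ring
      _ = _ := by rw [h7]
  have e2 : 2 * C1 ^ 2 * lam ^ 4 * (dlV V * Real.log R + C2 * lam) =
      2 * C1 ^ 2 * (lam ^ 4 * (dlV V * Real.log R)) + 2 * C1 ^ 2 * C2 * lam ^ 5 := by ring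
  have b1 : i ^ 2 * lam * (1 + Real.log R) ^ 2 ≤ Q := by
    rw [hQ]
    have h7 : i ^ 2 * lam ≤ lam ^ 3 := by
      have h8 : i ^ 2 ≤ lam ^ 2 := pow_le_pow_left₀ hi0.le hil 2
      calc i ^ 2 * lam ≤ lam ^ 2 * lam := mul_le_mul_of_nonneg_right h8 hlam0.le
        _ = lam ^ 3 := by ring
    exact mul_le_mul_of_nonneg_right (h7.trans hl3) (by positivity)
  have b2 : lam ^ 4 * (dlV V * Real.log R) ≤ Q := by
    rw [hQ]
    have h7 : dlV V * Real.log R ≤ Real.log R := mul_le_of_le_one_left hlR hδ1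
    exact mul_le_mul hl4 (h7.trans hLL) (by positivity) (by positivity)
  have b3 : lam ^ 5 ≤ Q := by
    rw [hQ]
    calc lam ^ 5 = lam ^ 5 * 1 := (mul_one _).symm
      _ ≤ lam ^ 6 * (1 + Real.log R) ^ 2 := mul_le_mul hl5 hL1 (by norm_num) (by positivity)
  obtain ⟨P, hP⟩ : ∃ P, P = Real.log R ^ 3 * i := ⟨_, rfl⟩
  have hP0 : 0 ≤ P := by rw [hP]; positivity
  have e3 : Real.log R ^ 3 / dlV V = P := by
    rw [hP, hi]
    ring
  have c1 : 8 * C2 * (i ^ 2 * lam * (1 + Real.log R) ^ 2) ≤ 8 * C2 * Q :=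
    mul_le_mul_of_nonneg_left b1 (by positivity)
  have c2 : 2 * C1 ^ 2 * (lam ^ 4 * (dlV V * Real.log R)) ≤ 2 * C1 ^ 2 * Q :=
    mul_le_mul_of_nonneg_left b2 (by positivity)
  have c3 : 2 * C1 ^ 2 * C2 * lam ^ 5 ≤ 2 * C1 ^ 2 * C2 * Q :=
    mul_le_mul_of_nonneg_left b3 (by positivity)
  have c4 : 0 ≤ (8 * C2 + 2 * C1 ^ 2 + 2 * C1 ^ 2 * C2) * P := by positivity
  rw [e3, ← hQ]
  have e4 : (8 + 8 * C2 + 2 * C1 ^ 2 + 2 * C1 ^ 2 * C2) * (P + Q) =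
      8 * P + (8 * C2 + 2 * C1 ^ 2 + 2 * C1 ^ 2 * C2) * P + 8 * Q + 8 * C2 * Q + 2 * C1 ^ 2 * Q +
        2 * C1 ^ 2 * C2 * Q := by ring
  rw [e1, ← hP] at h5
  rw [e2] at h6
  rw [e4]
  linarith

end Pool.Agent.Lib.MP_9f2731_nt.CG.Ma
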