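import Pool.Agent.Lib.MP_9f2731_nt.CG.Ma.Spec

/-!
MP_9f2731_nt, CG/Ma, module UbF: the product of the sieve sums as the value of an operator.
-/

namespace Pool.Agent.Lib.MP_9f2731_nt.CG.Ma

open Finset
open Pool.Agent.Lib.MP_9f2731_nt.GP Pool.Agent.Lib.MP_9f2731_nt.GP.Sv Pool.Agent.Lib.MP_9f2731_nt.QL Pool.Agent.Lib.MP_9f2731_nt.QL.Sw

theorem pUbF : UbFStmt := by
  intro ι _ _ V R f n
  rw [Finset.prod_comm]
  have hb := block (ι := ι) (κ := ι) univ (fun i => {i}) (fun j _ k _ hjk => by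
    rw [Set.disjoint_singleton]
    exact hjk) (fun i => ∏ p ∈ QsV V R, (1 - ind p (n i) • mon (e i p)))
    (fun i a => f i (a i)) (fun i _ => by
      refine Loc.prod _ fun p _ => ?_
      refine Loc.sub Loc.one (Loc.smul (Loc.mon fun k hk => ?_) _)
      exact e_ne (fun hki => hk (by rw [Set.mem_singleton_iff]; exact hki)) p)
    (fun i _ a b hab => by
      show f i (a i) = f i (b i)
      rw [hab i (Set.mem_singleton i)]) 1
  have e0 : PhF f = fun a => ∏ i ∈ univ, f i (a i) := rfl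
  rw [e0, hb]
  refine Finset.prod_congr rfl fun i _ => ?_
  have hsq := sqxV (A := Al ι) V R (fun d => ind d (n i) • mon (e i d)) (by
    show ind 1 (n i) • mon (e i 1) = 1
    rw [e_one, mon_one]
    unfold ind
    rw [if_pos (one_dvd _), one_smul]) (fun k l hkl => by
    show ind (k * l) (n i) • mon (e i (k * l)) = (ind k (n i) • mon (e i k)) * (ind l (n i) • mon (e i l))
    rw [e_mul, mon_mul, smul_mul_smul_comm]
    congr 1
    unfold ind
    by_cases hk : k ∣ n i
    · by_cases hl : l ∣ n i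
      · rw [if_pos hk, if_pos hl, if_pos (hkl.mul_dvd_of_dvd_of_dvd hk hl), one_mul]
      · rw [if_neg hl, if_neg (fun h' => hl ((Dvd.intro_left k rfl).trans h')), mul_zero]
    · rw [if_neg hk, if_neg (fun h' => hk ((Dvd.intro l rfl).trans h')), zero_mul])
  rw [hsq, act_sum]
  unfold AF
  refine Finset.sum_congr rfl fun d _ => ?_
  have e1 : ((ArithmeticFunction.moebius d : ℤ) : Al ι) * (ind d (n i) • mon (e i d))
      = (((ArithmeticFunction.moebius d : ℤ) : ℝ) * ind d (n i)) • mon (e i d) := by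
    rw [mul_smul, ← zsmul_eq_mul, ← Int.cast_smul_eq_zsmul ℝ]
  rw [e1, act_smul, act_mon, mul_one, e_self]

end Pool.Agent.Lib.MP_9f2731_nt.CG.Ma
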